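import Pool.Agent.W584.GB.Comb6
import Pool.Agent.W369.GB.Gen
import Pool.Agent.W369.GB.Hol
import Pool.Agent.W298.GB.VK
import Pool.Agent.W369.GB.Op
import Pool.Agent.W376.GB.Contr
import Pool.Agent.W376.GB.Inj
import Pool.Agent.W369.GB.Qc
import Pool.Agent.W612.GB.Real
import Pool.Agent.W369.GB.Nb
import Pool.Agent.W298.GB.Lab
import Pool.Agent.W298.GB.Glev
import Pool.Agent.W298.GB.Uniq
import Pool.Agent.W298.GB.Red

set_option autoImplicit false

/-! # Assembly of project GB -/

namespace Pool.Agent.W584.GB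

theorem s_red : S_red :=
  Pool.Agent.W298.GB.red
    (Pool.Agent.W298.GB.vk Pool.Agent.W369.GB.gen Pool.Agent.W369.GB.hol)
    (Pool.Agent.W369.GB.nbhd Pool.Agent.W369.GB.open_star Pool.Agent.W376.GB.contr
      Pool.Agent.W369.GB.nest Pool.Agent.W376.GB.inj Pool.Agent.W369.GB.quot)
    (Pool.Agent.W298.GB.glev Pool.Agent.W298.GB.lab Pool.Agent.W376.GB.mtch Pool.Agent.W376.GB.inj
      Pool.Agent.W369.GB.nest Pool.Agent.W369.GB.quot Pool.Agent.W369.GB.cell)
    (Pool.Agent.W298.GB.uniq Pool.Agent.W376.GB.mtch Pool.Agent.W612.GB.real Pool.Agent.W369.GB.cell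
      Pool.Agent.W369.GB.quot)
    (Pool.Agent.W612.GB.type_of Pool.Agent.W612.GB.real Pool.Agent.W369.GB.cell)

/-- The fundamental group of the space of three unordered points on the graph. -/
theorem exists_iso : ∃ x : UC Gr, Nonempty (FundamentalGroup (UC Gr) x ≃* RA) := by
  obtain ⟨-, h⟩ := Pool.Agent.W612.GB.type_of Pool.Agent.W612.GB.real Pool.Agent.W369.GB.cell (Fin 10) Gr
  obtain ⟨x, hx⟩ := h tau0 univ_sF.adm
  exact ⟨x, s_red (Fin 10) Gr triFree_gr RA sF tau0 univ_sF x hx⟩

theorem gr_connected : Gr.Connected := by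
  have hr : ∀ v w : Fin 10, adjB v w = true → Gr.Reachable v w := fun v w h =>
    SimpleGraph.Adj.reachable (G := Gr) h
  have h01 := hr 0 1 (by decide +kernel)
  have h02 := hr 0 2 (by decide +kernel)
  have h13 := hr 1 3 (by decide +kernel)
  have h14 := hr 1 4 (by decide +kernel)
  have h05 := hr 0 5 (by decide +kernel)
  have h56 := hr 5 6 (by decide +kernel)
  have h57 := hr 5 7 (by decide +kernel)
  have h68 := hr 6 8 (by decide +kernel)
  have h69 := hr 6 9 (by decide +kernel)
  rw [SimpleGraph.connected_iff_exists_forall_reachable]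
  refine ⟨0, fun w => ?_⟩
  fin_cases w
  · exact SimpleGraph.Reachable.refl _
  · exact h01
  · exact h02
  · exact h01.trans h13
  · exact h01.trans h14
  · exact h05
  · exact h05.trans h56
  · exact h05.trans h57
  · exact (h05.trans h56).trans h68
  · exact (h05.trans h56).trans h69

theorem hg_connected : HG.Connected := by
  have hr : ∀ v w : Fin 10, hB v w = true → HG.Reachable v w := fun v w h =>
    SimpleGraph.Adj.reachable (G := HG) h
  have h05 := hr 0 5 (by decide +kernel)
  have h06 := hr 0 6 (by decide +kernel)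
  have h07 := hr 0 7 (by decide +kernel)
  have h08 := hr 0 8 (by decide +kernel)
  have h04 := hr 0 4 (by decide +kernel)
  have h51 := hr 5 1 (by decide +kernel)
  have h52 := hr 5 2 (by decide +kernel)
  have h53 := hr 5 3 (by decide +kernel)
  have h59 := hr 5 9 (by decide +kernel)
  rw [SimpleGraph.connected_iff_exists_forall_reachable]
  refine ⟨0, fun w => ?_⟩
  fin_cases w
  · exact SimpleGraph.Reachable.refl _
  · exact h05.trans h51
  · exact h05.trans h52
  · exact h05.trans h53
  · exact h04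
  · exact h05
  · exact h06
  · exact h07
  · exact h08
  · exact h05.trans h59

/-- The right-angled Artin group is not cyclic: it maps onto `(ℤ/2)²`-valued functions on two generators. -/
theorem ra_not_cyclic : ¬ IsCyclic RA := by
  intro hc
  let f : Fin 10 → Multiplicative (ZMod 2 × ZMod 2) := fun k =>
    if k = 0 then Multiplicative.ofAdd (1, 0) else if k = 1 then Multiplicative.ofAdd (0, 1) else 1
  let F : RA →* Multiplicative (ZMod 2 × ZMod 2) := PresentedGroup.toGroup (f := f) (by
    rintro r ⟨a, b, -, rfl⟩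
    rw [map_mul, map_mul, map_mul, map_inv, map_inv, mul_comm (FreeGroup.lift f (FreeGroup.of a))]
    group)
  have h0 : F (gx 0) = Multiplicative.ofAdd (1, 0) := PresentedGroup.toGroup.of _
  have h1 : F (gx 1) = Multiplicative.ofAdd (0, 1) := PresentedGroup.toGroup.of _
  obtain ⟨g, hg⟩ := hc.exists_generator
  obtain ⟨m, hm⟩ := Subgroup.mem_zpowers_iff.mp (hg (gx 0))
  obtain ⟨n, hn⟩ := Subgroup.mem_zpowers_iff.mp (hg (gx 1))
  have e0 : (F g) ^ m = Multiplicative.ofAdd ((1, 0) : ZMod 2 × ZMod 2) := by rw [← map_zpow, hm, h0]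
  have e1 : (F g) ^ n = Multiplicative.ofAdd ((0, 1) : ZMod 2 × ZMod 2) := by rw [← map_zpow, hn, h1]
  have a0 : m • (Multiplicative.toAdd (F g)) = ((1, 0) : ZMod 2 × ZMod 2) := e0
  have a1 : n • (Multiplicative.toAdd (F g)) = ((0, 1) : ZMod 2 × ZMod 2) := e1
  generalize Multiplicative.toAdd (F g) = p at a0 a1
  obtain ⟨p1, p2⟩ := p
  rw [Prod.smul_mk, Prod.mk.injEq] at a0 a1
  obtain ⟨b1, b2⟩ := a0
  obtain ⟨b3, b4⟩ := a1
  rw [zsmul_eq_mul] at b1 b2 b3 b4
  revert b1 b2 b3 b4
  generalize (m : ZMod 2) = m'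
  generalize (n : ZMod 2) = n'
  revert p1 p2 m' n'
  decide

end Pool.Agent.W584.GB
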