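import Pool.Agent.W584.GB.Data

set_option autoImplicit false

/-! # Soundness of the loops of the certificate -/

namespace Pool.Agent.W584.GB

theorem bit_eq (K i : ℕ) : bit K i = K.testBit i := by
  unfold bit
  have h1 : Nat.land (Nat.shiftRight K i) 1 = (K >>> i) % 2 := Nat.and_one_is_mod _
  rw [h1, Nat.testBit_eq_decide_div_mod_eq, Nat.shiftRight_eq_div_pow]
  by_cases h : K / 2 ^ i % 2 = 1
  · simp [h]
  · rw [decide_eq_false h, Bool.eq_false_iff]
    intro h2
    exact h (Nat.eq_of_beq_eq_true h2)

theorem bit_setb (K i j : ℕ) : bit (setb K i) j = true ↔ j = i ∨ bit K j = true := by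
  rw [bit_eq, bit_eq]
  have h1 : setb K i = K ||| (1 <<< i) := rfl
  rw [h1, Nat.testBit_or, Nat.one_shiftLeft, Nat.testBit_two_pow]
  simp only [Bool.or_eq_true, decide_eq_true_eq]
  tauto

/-- A bounded conjunction. -/
def allB (f : ℕ → Bool) (n : ℕ) : Bool := Nat.rec true (fun i ih => cond (f i) ih false) n

theorem allB_spec {f : ℕ → Bool} {n : ℕ} (h : allB f n = true) : ∀ i < n, f i = true := by
  induction n with
  | zero => intro i hi; omega
  | succ n ih =>
    have h' : cond (f n) (allB f n) false = true := h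
    intro i hi
    rcases hf : f n with _ | _
    · rw [hf] at h'; simp at h'
    · rw [hf] at h'
      rcases Nat.lt_succ_iff_lt_or_eq.mp hi with h1 | h1
      · exact ih h' i h1
      · rw [h1]; exact hf

theorem cond_true_false {b : Bool} {x : Bool} (h : cond b x false = true) : b = true ∧ x = true := by
  cases b <;> simp_all

theorem cond_false_left {b : Bool} {x : Bool} (h : cond b false x = true) : b = false ∧ x = true := by
  cases b <;> simp_all

theorem beq_true {a b : ℕ} (h : Nat.beq a b = true) : a = b := Nat.eq_of_beq_eq_true h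

theorem beq_false {a b : ℕ} (h : Nat.beq a b = false) : a ≠ b := Nat.ne_of_beq_eq_false h

theorem ble_true {a b : ℕ} (h : Nat.ble a b = true) : a ≤ b := Nat.le_of_ble_eq_true h

theorem ecode_of_le {h a b : ℕ} (hab : a ≤ b) : ecode h a b = h * 529 + a * 23 + b := by
  unfold ecode
  rw [Nat.ble_eq_true_of_le hab]; rfl

theorem ecode_comm (h a b : ℕ) : ecode h a b = ecode h b a := by
  rcases lt_trichotomy a b with h1 | h1 | h1
  · rw [ecode_of_le h1.le]
    unfold ecode
    have : Nat.ble b a = false := by
      rw [Bool.eq_false_iff]; intro h2; exact absurd (ble_true h2) (by omega)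
    rw [this]; rfl
  · rw [h1]
  · rw [ecode_of_le (h := h) h1.le]
    unfold ecode
    have : Nat.ble a b = false := by
      rw [Bool.eq_false_iff]; intro h2; exact absurd (ble_true h2) (by omega)
    rw [this]; rfl

theorem evalid_spec {h a b : ℕ} (hv : evalid h a b = true) :
    h < 26 ∧ a ≤ b ∧ b < 23 ∧ a ≠ SRC h ∧ b ≠ SRC h ∧ (a = b → 10 ≤ a) := by
  unfold evalid at hv
  obtain ⟨h1, hv⟩ := cond_true_false hv
  obtain ⟨h2, hv⟩ := cond_true_false hv
  obtain ⟨h3, hv⟩ := cond_true_false hv
  obtain ⟨h4, hv⟩ := cond_false_left hv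
  obtain ⟨h5, hv⟩ := cond_false_left hv
  refine ⟨?_, ble_true h2, ?_, beq_false h4, beq_false h5, ?_⟩
  · have := ble_true h1; omega
  · have := ble_true h3; omega
  · intro hab
    have h6 : Nat.beq a b = true := by rw [hab]; exact Nat.beq_refl b
    rw [h6] at hv
    exact ble_true hv

theorem evalid_of {h a b : ℕ} (h1 : h < 26) (h2 : a ≤ b) (h3 : b < 23) (h4 : a ≠ SRC h) (h5 : b ≠ SRC h)
    (h6 : a = b → 10 ≤ a) : evalid h a b = true := by
  unfold evalid
  have e4 : Nat.beq a (SRC h) = false := by
    rw [Bool.eq_false_iff]; intro h7; exact h4 (beq_true h7)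
  have e5 : Nat.beq b (SRC h) = false := by
    rw [Bool.eq_false_iff]; intro h7; exact h5 (beq_true h7)
  rw [Nat.ble_eq_true_of_le (show h ≤ 25 by omega), Nat.ble_eq_true_of_le h2,
    Nat.ble_eq_true_of_le (show b ≤ 22 by omega), e4, e5]
  rcases hab : Nat.beq a b with _ | _
  · rfl
  · exact Nat.ble_eq_true_of_le (h6 (beq_true hab))

/-- Sorted code of a type. -/
def TC (x a b : ℕ) : ℕ := tcode x (min a b) (max a b)

theorem TC_of_le {x a b : ℕ} (h : a ≤ b) : TC x a b = tcode x a b := by
  unfold TC; rw [min_eq_left h, max_eq_right h]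

theorem TC_comm' (x a b : ℕ) : TC x a b = TC x b a := by
  unfold TC; rw [min_comm, max_comm]

theorem tcode_eq (x a b : ℕ) (h : a ≤ b) : tcode x a b =
    (min x a) * 529 + (max (min x b) a) * 23 + max x b := by
  unfold tcode
  rcases h1 : Nat.ble x a with _ | _
  · have h1' : ¬ x ≤ a := fun h2 => by rw [Nat.ble_eq_true_of_le h2] at h1; simp at h1
    rcases h3 : Nat.ble x b with _ | _
    · have h3' : ¬ x ≤ b := fun h2 => by rw [Nat.ble_eq_true_of_le h2] at h3; simp at h3
      have e1 : min x a = a := by omega
      have e2 : max (min x b) a = b := by omega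
      have e3 : max x b = x := by omega
      rw [e1, e2, e3]; rfl
    · have h3' := ble_true h3
      have e1 : min x a = a := by omega
      have e2 : max (min x b) a = x := by omega
      have e3 : max x b = b := by omega
      rw [e1, e2, e3]; rfl
  · have h1' := ble_true h1
    have e1 : min x a = x := by omega
    have e2 : max (min x b) a = a := by omega
    have e3 : max x b = b := by omega
    rw [e1, e2, e3]; rfl

theorem TC_eq (x a b : ℕ) : TC x a b = (min x (min a b)) * 529 +
    (x + a + b - min x (min a b) - max x (max a b)) * 23 + max x (max a b) := by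
  unfold TC
  rw [tcode_eq _ _ _ (by omega)]
  have e2 : max (min x (max a b)) (min a b) = x + a + b - min x (min a b) - max x (max a b) := by
    omega
  rw [e2]

theorem TC_swap (x a b : ℕ) : TC x a b = TC a x b := by
  rw [TC_eq, TC_eq]
  have e1 : min x (min a b) = min a (min x b) := by omega
  have e2 : max x (max a b) = max a (max x b) := by omega
  rw [e1, e2, Nat.add_comm x a]

end Pool.Agent.W584.GB
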