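import Pool.Agent.W584.GB.Comb1

set_option autoImplicit false

/-! # Soundness of the loops of the certificate, second part -/

namespace Pool.Agent.W584.GB

theorem dig5_facts : ∀ h < 26, SRC h < 10 ∧ 10 ≤ TGT h ∧ TGT h < 23 := by decide +kernel

theorem SRC_lt {h : ℕ} (hh : h < 26) : SRC h < 10 := (dig5_facts h hh).1
theorem TGT_ge {h : ℕ} (hh : h < 26) : 10 ≤ TGT h := (dig5_facts h hh).2.1
theorem TGT_lt {h : ℕ} (hh : h < 26) : TGT h < 23 := (dig5_facts h hh).2.2

/-- Validity of an elementary move, without ordering. -/
def EV (h a b : ℕ) : Prop :=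
  h < 26 ∧ a < 23 ∧ b < 23 ∧ a ≠ SRC h ∧ b ≠ SRC h ∧ (a = b → 10 ≤ a)

theorem EV.symm {h a b : ℕ} (H : EV h a b) : EV h b a :=
  ⟨H.1, H.2.2.1, H.2.1, H.2.2.2.2.1, H.2.2.2.1, fun e => by
    have := H.2.2.2.2.2 e.symm; omega⟩

theorem EV.evalid {h a b : ℕ} (H : EV h a b) (hab : a ≤ b) : evalid h a b = true :=
  evalid_of H.1 hab H.2.2.1 H.2.2.2.1 H.2.2.2.2.1 H.2.2.2.2.2

theorem EV_of_evalid {h a b : ℕ} (H : Pool.Agent.W584.GB.evalid h a b = true) : EV h a b ∧ a ≤ b := by
  obtain ⟨h1, h2, h3, h4, h5, h6⟩ := evalid_spec H
  exact ⟨⟨h1, by omega, h3, h4, h5, h6⟩, h2⟩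

theorem ecode_inj {h a b h' a' b' : ℕ} (H : EV h a b) (H' : EV h' a' b')
    (e : ecode h a b = ecode h' a' b') : h = h' ∧ ((a = a' ∧ b = b') ∨ (a = b' ∧ b = a')) := by
  obtain ⟨h1, h2, h3, -⟩ := H
  obtain ⟨h1', h2', h3', -⟩ := H'
  rcases le_total a b with hab | hab <;> rcases le_total a' b' with hab' | hab'
  · rw [ecode_of_le hab, ecode_of_le hab'] at e
    refine ⟨by omega, Or.inl ⟨by omega, by omega⟩⟩
  · rw [ecode_of_le hab, ecode_comm h' a' b', ecode_of_le hab'] at e
    refine ⟨by omega, Or.inr ⟨by omega, by omega⟩⟩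
  · rw [ecode_comm h a b, ecode_of_le hab, ecode_of_le hab'] at e
    refine ⟨by omega, Or.inr ⟨by omega, by omega⟩⟩
  · rw [ecode_comm h a b, ecode_of_le hab, ecode_comm h' a' b', ecode_of_le hab'] at e
    refine ⟨by omega, Or.inl ⟨by omega, by omega⟩⟩

section gauge

variable {π : Type} [Group π] (L : ℕ → ℕ → ℕ → π)

/-- The invariant for the spanning tree: a gauge on the known types. -/
def InvG (K E : ℕ) : Prop :=
  ∃ φ : ℕ → π, φ TBASE = 1 ∧ bit K TBASE = true ∧ ∀ h a b, evalid h a b = true →
    bit E (ecode h a b) = true →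
    bit K (tcode (SRC h) a b) = true ∧ bit K (tcode (TGT h) a b) = true ∧
      φ (tcode (SRC h) a b) * L h a b = φ (tcode (TGT h) a b) ∧ LB (ecode h a b) = 0

theorem code_digits (e : ℕ) :
    e = (e / 529) * 529 + ((e % 529) / 23) * 23 + e % 23 := by omega

theorem loopT_gauge : ∀ (n i K E : ℕ), loopT n i K E = true → InvG L K E → InvG L TFULL ETREE := by
  intro n
  induction n with
  | zero =>
    intro i K E h hI
    have h' : cond (Nat.beq K TFULL) (Nat.beq E ETREE) false = true := h
    obtain ⟨h1, h2⟩ := cond_true_false h'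
    rw [← beq_true h1, ← beq_true h2]; exact hI
  | succ n ih =>
    intro i K E h hI
    set u := dig TREE 16 i with hu
    set e := u / 2 with he
    set hh := e / 529 with hhh
    set a := (e % 529) / 23 with ha
    set b := e % 23 with hb
    set s := tcode (SRC hh) a b with hs
    set t := tcode (TGT hh) a b with ht
    have h' : cond (evalid hh a b) (cond (Nat.beq (LB e) 0)
        (cond (Nat.beq (u % 2) 0)
          (cond (bit K s) (cond (bit K t) false (loopT n (Nat.succ i) (setb K t) (setb E e))) false)
          (cond (bit K t) (cond (bit K s) false (loopT n (Nat.succ i) (setb K s) (setb E e))) false))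
        false) false = true := h
    obtain ⟨hv, h'⟩ := cond_true_false h'
    obtain ⟨hl, h'⟩ := cond_true_false h'
    have hl := beq_true hl
    obtain ⟨hEV, hab⟩ := EV_of_evalid hv
    have hcode : ecode hh a b = e := by
      rw [ecode_of_le hab]; exact (code_digits e).symm
    obtain ⟨φ, hφ0, hφb, hφ⟩ := hI
    have huniq : ∀ h0 a0 b0, evalid h0 a0 b0 = true → ecode h0 a0 b0 = e →
        h0 = hh ∧ a0 = a ∧ b0 = b := by
      intro h0 a0 b0 hv0 hc0
      obtain ⟨hEV0, hab0⟩ := EV_of_evalid hv0
      obtain ⟨q1, q2⟩ := ecode_inj hEV0 hEV (hc0.trans hcode.symm)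
      rcases q2 with ⟨q2, q3⟩ | ⟨q2, q3⟩
      · exact ⟨q1, q2, q3⟩
      · exact ⟨q1, by omega, by omega⟩
    rcases hd : Nat.beq (u % 2) 0 with _ | _
    · rw [hd] at h'
      obtain ⟨hkt, h'⟩ := cond_true_false (show cond (bit K t) (cond (bit K s) false
        (loopT n (Nat.succ i) (setb K s) (setb E e))) false = true from h')
      obtain ⟨hks, h'⟩ := cond_false_left h'
      refine ih _ _ _ h' ?_
      refine ⟨Function.update φ s (φ t * (L hh a b)⁻¹), ?_, ?_, ?_⟩
      · rw [Function.update_of_ne, hφ0]
        intro hc; rw [← hc, hφb] at hks; simp at hks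
      · exact (bit_setb _ _ _).mpr (Or.inr hφb)
      · intro h0 a0 b0 hv0 hb0
        rcases (bit_setb _ _ _).mp hb0 with hb0 | hb0
        · obtain ⟨rfl, rfl, rfl⟩ := huniq h0 a0 b0 hv0 hb0
          have hst : t ≠ s := by intro hc; rw [hc, hks] at hkt; simp at hkt
          refine ⟨(bit_setb _ _ _).mpr (Or.inl rfl), (bit_setb _ _ _).mpr (Or.inr hkt), ?_, ?_⟩
          · change Function.update φ s _ s * _ = Function.update φ s _ t
            rw [Function.update_self, Function.update_of_ne hst]
            group
          · rw [hcode]; exact hl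
        · obtain ⟨k1, k2, k3, k4⟩ := hφ h0 a0 b0 hv0 hb0
          refine ⟨(bit_setb _ _ _).mpr (Or.inr k1), (bit_setb _ _ _).mpr (Or.inr k2), ?_, k4⟩
          rw [Function.update_of_ne, Function.update_of_ne, k3]
          · intro hc; rw [hc, hks] at k2; simp at k2
          · intro hc; rw [hc, hks] at k1; simp at k1
    · rw [hd] at h'
      obtain ⟨hks, h'⟩ := cond_true_false (show cond (bit K s) (cond (bit K t) false
        (loopT n (Nat.succ i) (setb K t) (setb E e))) false = true from h')
      obtain ⟨hkt, h'⟩ := cond_false_left h'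
      refine ih _ _ _ h' ?_
      refine ⟨Function.update φ t (φ s * L hh a b), ?_, ?_, ?_⟩
      · rw [Function.update_of_ne, hφ0]
        intro hc; rw [← hc, hφb] at hkt; simp at hkt
      · exact (bit_setb _ _ _).mpr (Or.inr hφb)
      · intro h0 a0 b0 hv0 hb0
        rcases (bit_setb _ _ _).mp hb0 with hb0 | hb0
        · obtain ⟨rfl, rfl, rfl⟩ := huniq h0 a0 b0 hv0 hb0
          have hst : s ≠ t := by intro hc; rw [hc, hkt] at hks; simp at hks
          refine ⟨(bit_setb _ _ _).mpr (Or.inr hks), (bit_setb _ _ _).mpr (Or.inl rfl), ?_, ?_⟩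
          · change Function.update φ t _ s * _ = Function.update φ t _ t
            rw [Function.update_self, Function.update_of_ne hst]
          · rw [hcode]; exact hl
        · obtain ⟨k1, k2, k3, k4⟩ := hφ h0 a0 b0 hv0 hb0
          refine ⟨(bit_setb _ _ _).mpr (Or.inr k1), (bit_setb _ _ _).mpr (Or.inr k2), ?_, k4⟩
          rw [Function.update_of_ne, Function.update_of_ne, k3]
          · intro hc; rw [hc, hkt] at k2; simp at k2
          · intro hc; rw [hc, hkt] at k1; simp at k1

end gauge

theorem loopT_conn {S : Type} (α : ℕ → S)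
    (hα : ∀ h a b, evalid h a b = true → LB (ecode h a b) = 0 →
      α (tcode (SRC h) a b) = α (tcode (TGT h) a b)) :
    ∀ (n i K E : ℕ), loopT n i K E = true → (∀ t, bit K t = true → α t = α TBASE) →
      ∀ t, bit TFULL t = true → α t = α TBASE := by
  intro n
  induction n with
  | zero =>
    intro i K E h hI
    have h' : cond (Nat.beq K TFULL) (Nat.beq E ETREE) false = true := h
    obtain ⟨h1, h2⟩ := cond_true_false h'
    rw [← beq_true h1]; exact hI
  | succ n ih =>
    intro i K E h hI
    set u := dig TREE 16 i with hu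
    set e := u / 2 with he
    set hh := e / 529 with hhh
    set a := (e % 529) / 23 with ha
    set b := e % 23 with hb
    set s := tcode (SRC hh) a b with hs
    set t := tcode (TGT hh) a b with ht
    have h' : cond (evalid hh a b) (cond (Nat.beq (LB e) 0)
        (cond (Nat.beq (u % 2) 0)
          (cond (bit K s) (cond (bit K t) false (loopT n (Nat.succ i) (setb K t) (setb E e))) false)
          (cond (bit K t) (cond (bit K s) false (loopT n (Nat.succ i) (setb K s) (setb E e))) false))
        false) false = true := h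
    obtain ⟨hv, h'⟩ := cond_true_false h'
    obtain ⟨hl, h'⟩ := cond_true_false h'
    have hl := beq_true hl
    obtain ⟨hEV, hab⟩ := EV_of_evalid hv
    have hcode : ecode hh a b = e := by
      rw [ecode_of_le hab]; exact (code_digits e).symm
    have hst : α s = α t := hα hh a b hv (by rw [hcode]; exact hl)
    rcases hd : Nat.beq (u % 2) 0 with _ | _
    · rw [hd] at h'
      obtain ⟨hkt, h'⟩ := cond_true_false (show cond (bit K t) (cond (bit K s) false
        (loopT n (Nat.succ i) (setb K s) (setb E e))) false = true from h')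
      obtain ⟨hks, h'⟩ := cond_false_left h'
      refine ih _ _ _ h' ?_
      intro t' ht'
      rcases (bit_setb _ _ _).mp ht' with q | q
      · rw [q, hst]; exact hI _ hkt
      · exact hI _ q
    · rw [hd] at h'
      obtain ⟨hks, h'⟩ := cond_true_false (show cond (bit K s) (cond (bit K t) false
        (loopT n (Nat.succ i) (setb K t) (setb E e))) false = true from h')
      obtain ⟨hkt, h'⟩ := cond_false_left h'
      refine ih _ _ _ h' ?_
      intro t' ht'
      rcases (bit_setb _ _ _).mp ht' with q | q
      · rw [q, ← hst]; exact hI _ hks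
      · exact hI _ q

section prop

variable {π : Type} [Group π]

/-- Values of labels. -/
def val (y : ℕ → π) (l : ℕ) : π := if l = 0 then 1 else if l % 2 = 1 then y (l / 2) else (y (l / 2 - 1))⁻¹

theorem val_zero (y : ℕ → π) : val y 0 = 1 := rfl

theorem val_linv (y : ℕ → π) (l : ℕ) : val y (linv l) = (val y l)⁻¹ := by
  unfold linv
  rcases h0 : Nat.beq l 0 with _ | _
  · have hl : l ≠ 0 := beq_false h0
    rcases h1 : Nat.beq (Nat.mod l 2) 1 with _ | _
    · have h1' : l % 2 ≠ 1 := beq_false h1
      obtain ⟨k, rfl⟩ : ∃ k, l = 2 * k + 2 := ⟨l / 2 - 1, by omega⟩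
      change val y (2 * k + 2 - 1) = _
      unfold val
      rw [if_neg (by omega), if_pos (by omega), if_neg (by omega), if_neg (by omega), inv_inv]
      congr 1; omega
    · have h1' : l % 2 = 1 := beq_true h1
      obtain ⟨k, rfl⟩ : ∃ k, l = 2 * k + 1 := ⟨l / 2, by omega⟩
      change val y (2 * k + 1 + 1) = _
      unfold val
      rw [if_neg (by omega), if_neg (by omega), if_neg (by omega), if_pos (by omega)]
      congr 2; omega
  · have hl : l = 0 := beq_true h0
    rw [hl]; simp [val]

theorem freeq_sound (y : ℕ → π) {l1 l2 l3 l4 : ℕ} (h : freeq l1 l2 l3 l4 = true) :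
    val y l1 * val y l2 = val y l3 * val y l4 := by
  unfold freeq at h
  rcases h13 : Nat.beq l1 l3 with _ | _
  · rw [h13] at h
    rcases h1 : Nat.beq l1 0 with _ | _
    · rw [h1] at h
      rcases h2 : Nat.beq l2 0 with _ | _
      · rw [h2] at h
        obtain ⟨h5, h6⟩ := cond_true_false (show cond (Nat.beq l2 (linv l1)) (Nat.beq l4 (linv l3))
          false = true from h)
        rw [beq_true h5, beq_true h6, val_linv, val_linv, mul_inv_cancel, mul_inv_cancel]
      · rw [h2] at h
        obtain ⟨h5, h6⟩ := cond_true_false (show cond (Nat.beq l3 0) (Nat.beq l1 l4)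
          false = true from h)
        rw [beq_true h2, beq_true h5, beq_true h6, val_zero, mul_one, one_mul]
    · rw [h1] at h
      rcases h4 : Nat.beq l4 0 with _ | _
      · rw [h4] at h
        obtain ⟨h5, h6⟩ := cond_true_false (show cond (Nat.beq l2 0) (Nat.beq l3 (linv l4))
          false = true from h)
        rw [beq_true h1, beq_true h5, beq_true h6, val_linv, val_zero, mul_one, inv_mul_cancel]
      · rw [h4] at h
        have h6 : Nat.beq l2 l3 = true := h
        rw [beq_true h1, beq_true h4, beq_true h6, val_zero, mul_one, one_mul]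
  · rw [h13] at h
    have h6 : Nat.beq l2 l4 = true := h
    rw [beq_true h13, beq_true h6]

variable (L : ℕ → ℕ → ℕ → π) (y : ℕ → π)

/-- The commuting squares of elementary moves. -/
def Squares : Prop :=
  ∀ h1 h2 c, h1 < 26 → h2 < 26 → c < 23 → SRC h1 ≠ SRC h2 → c ≠ SRC h1 → c ≠ SRC h2 →
    L h1 (SRC h2) c * L h2 (TGT h1) c = L h2 (SRC h1) c * L h1 (TGT h2) c

/-- The invariant of the propagation. -/
def InvS (E : ℕ) : Prop :=
  ∀ h a b, EV h a b → bit E (ecode h a b) = true → L h a b = val y (LB (ecode h a b))

theorem InvS_set (hsym : ∀ h a b, L h a b = L h b a) {E h a b : ℕ} (hI : InvS L y E) (hv : EV h a b)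
    (hL : L h a b = val y (LB (ecode h a b))) : InvS L y (setb E (ecode h a b)) := by
  intro h' a' b' hv' hb'
  rcases (bit_setb _ _ _).mp hb' with q | q
  · obtain ⟨r1, r2⟩ := ecode_inj hv' hv q
    rw [q, ← hL]
    rcases r2 with ⟨r2, r3⟩ | ⟨r2, r3⟩
    · rw [r1, r2, r3]
    · rw [r1, r2, r3, hsym]
  · exact hI h' a' b' hv' q

theorem loopS_sound (hsym : ∀ h a b, L h a b = L h b a) (hsq : Squares L) :
    ∀ (n i E : ℕ), loopS n i E = true → InvS L y E → InvS L y EFULL := by
  intro n
  induction n with
  | zero =>
    intro i E h hI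
    have h' : Nat.beq E EFULL = true := h
    rw [← beq_true h']; exact hI
  | succ n ih =>
    intro i E h hI
    set u := dig STEPS 16 i with hu
    set j := u % 4 with hj
    set q := u / 4 with hq
    set c := q % 23 with hc
    set r := q / 23 with hr
    set h2 := r % 26 with hh2
    set h1 := r / 26 with hh1
    set e1 := ecode h1 (SRC h2) c with he1
    set e2 := ecode h2 (TGT h1) c with he2
    set e3 := ecode h2 (SRC h1) c with he3
    set e4 := ecode h1 (TGT h2) c with he4
    have h' : cond (Nat.ble h1 25) (cond (Nat.beq (SRC h1) (SRC h2)) false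
        (cond (Nat.beq c (SRC h1)) false (cond (Nat.beq c (SRC h2)) false
          (cond (freeq (LB e1) (LB e2) (LB e3) (LB e4))
            (cond (Nat.beq j 0)
              (cond (bit E e2) (cond (bit E e3) (cond (bit E e4)
                (loopS n (Nat.succ i) (setb E e1)) false) false) false)
              (cond (Nat.beq j 1)
                (cond (bit E e1) (cond (bit E e3) (cond (bit E e4)
                  (loopS n (Nat.succ i) (setb E e2)) false) false) false)
                (cond (Nat.beq j 2)
                  (cond (bit E e1) (cond (bit E e2) (cond (bit E e4)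
                    (loopS n (Nat.succ i) (setb E e3)) false) false) false)
                  (cond (bit E e1) (cond (bit E e2) (cond (bit E e3)
                    (loopS n (Nat.succ i) (setb E e4)) false) false) false)))) false)))) false
          = true := h
    obtain ⟨k1, h'⟩ := cond_true_false h'
    obtain ⟨k2, h'⟩ := cond_false_left h'
    obtain ⟨k3, h'⟩ := cond_false_left h'
    obtain ⟨k4, h'⟩ := cond_false_left h'
    obtain ⟨k5, h'⟩ := cond_true_false h'
    have hh1' : h1 < 26 := by have := ble_true k1; omega
    have hh2' : h2 < 26 := Nat.mod_lt _ (by norm_num)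
    have hc' : c < 23 := Nat.mod_lt _ (by norm_num)
    have k2 := beq_false k2
    have k3 := beq_false k3
    have k4 := beq_false k4
    have s1 := SRC_lt hh1'
    have s2 := SRC_lt hh2'
    have t1 := TGT_ge hh1'
    have t1' := TGT_lt hh1'
    have t2 := TGT_ge hh2'
    have t2' := TGT_lt hh2'
    have v1 : EV h1 (SRC h2) c := ⟨hh1', by omega, hc', fun e => k2 e.symm, k3, fun e => absurd e.symm k4⟩
    have v2 : EV h2 (TGT h1) c := ⟨hh2', t1', hc', by omega, k4, fun e => by omega⟩
    have v3 : EV h2 (SRC h1) c := ⟨hh2', by omega, hc', k2, k4, fun e => absurd e.symm k3⟩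
    have v4 : EV h1 (TGT h2) c := ⟨hh1', t2', hc', by omega, k3, fun e => by omega⟩
    have hs := hsq h1 h2 c hh1' hh2' hc' k2 k3 k4
    have hf := freeq_sound y k5
    rcases j0 : Nat.beq j 0 with _ | _
    · rw [j0] at h'
      have h' : cond (Nat.beq j 1)
                (cond (bit E e1) (cond (bit E e3) (cond (bit E e4)
                  (loopS n (Nat.succ i) (setb E e2)) false) false) false)
                (cond (Nat.beq j 2)
                  (cond (bit E e1) (cond (bit E e2) (cond (bit E e4)
                    (loopS n (Nat.succ i) (setb E e3)) false) false) false)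
                  (cond (bit E e1) (cond (bit E e2) (cond (bit E e3)
                    (loopS n (Nat.succ i) (setb E e4)) false) false) false)) = true := h'
      rcases j1 : Nat.beq j 1 with _ | _
      · rw [j1] at h'
        have h' : (cond (Nat.beq j 2)
                  (cond (bit E e1) (cond (bit E e2) (cond (bit E e4)
                    (loopS n (Nat.succ i) (setb E e3)) false) false) false)
                  (cond (bit E e1) (cond (bit E e2) (cond (bit E e3)
                    (loopS n (Nat.succ i) (setb E e4)) false) false) false)) = true := h'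
        rcases j2 : Nat.beq j 2 with _ | _
        · rw [j2] at h'
          have h' : (cond (bit E e1) (cond (bit E e2) (cond (bit E e3)
                    (loopS n (Nat.succ i) (setb E e4)) false) false) false) = true := h'
          obtain ⟨b1, h'⟩ := cond_true_false h'
          obtain ⟨b2, h'⟩ := cond_true_false h'
          obtain ⟨b3, h'⟩ := cond_true_false h'
          refine ih _ _ h' (InvS_set L y hsym hI v4 ?_)
          rw [hI _ _ _ v1 b1, hI _ _ _ v2 b2, hI _ _ _ v3 b3, hf] at hs
          exact (mul_left_cancel hs).symm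
        · rw [j2] at h'
          have h' : (cond (bit E e1) (cond (bit E e2) (cond (bit E e4)
                    (loopS n (Nat.succ i) (setb E e3)) false) false) false) = true := h'
          obtain ⟨b1, h'⟩ := cond_true_false h'
          obtain ⟨b2, h'⟩ := cond_true_false h'
          obtain ⟨b4, h'⟩ := cond_true_false h'
          refine ih _ _ h' (InvS_set L y hsym hI v3 ?_)
          rw [hI _ _ _ v1 b1, hI _ _ _ v2 b2, hI _ _ _ v4 b4, hf] at hs
          exact (mul_right_cancel hs).symm
      · rw [j1] at h'
        have h' : (cond (bit E e1) (cond (bit E e3) (cond (bit E e4)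
                  (loopS n (Nat.succ i) (setb E e2)) false) false) false) = true := h'
        obtain ⟨b1, h'⟩ := cond_true_false h'
        obtain ⟨b3, h'⟩ := cond_true_false h'
        obtain ⟨b4, h'⟩ := cond_true_false h'
        refine ih _ _ h' (InvS_set L y hsym hI v2 ?_)
        rw [hI _ _ _ v1 b1, hI _ _ _ v3 b3, hI _ _ _ v4 b4, ← hf] at hs
        exact mul_left_cancel hs
    · rw [j0] at h'
      have h' : (cond (bit E e2) (cond (bit E e3) (cond (bit E e4)
                (loopS n (Nat.succ i) (setb E e1)) false) false) false) = true := h'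
      obtain ⟨b2, h'⟩ := cond_true_false h'
      obtain ⟨b3, h'⟩ := cond_true_false h'
      obtain ⟨b4, h'⟩ := cond_true_false h'
      refine ih _ _ h' (InvS_set L y hsym hI v1 ?_)
      rw [hI _ _ _ v2 b2, hI _ _ _ v3 b3, hI _ _ _ v4 b4, ← hf] at hs
      exact mul_right_cancel hs

end prop

end Pool.Agent.W584.GB
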