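import Pool.Agent.W584.GB.Defs
import Pool.Agent.W584.GB.Comb2

set_option autoImplicit false

/-! # The graph, its cells and the checks over all moves -/

namespace Pool.Agent.W584.GB

/-- Adjacency table of two copies of `K_{2,3}` joined by an edge. -/
def ADJT : ℕ := 0x300c0c8320304060181906426

/-- Adjacency. -/
def adjB (a b : Fin 10) : Bool := bit ADJT (a.val * 10 + b.val)

theorem adjB_symm : ∀ a b : Fin 10, adjB a b = true → adjB b a = true := by decide +kernel

theorem adjB_irrefl : ∀ a : Fin 10, ¬ adjB a a = true := by decide +kernel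

/-- Two copies of `K_{2,3}` joined by an edge. -/
def Gr : SimpleGraph (Fin 10) where
  Adj a b := adjB a b = true
  symm := ⟨fun a b h => adjB_symm a b h⟩
  loopless := ⟨fun a h => adjB_irrefl a h⟩

/-- The cells. -/
def cell : ℕ → Finset (Fin 10)
  | 0 => {0}
  | 1 => {1}
  | 2 => {2}
  | 3 => {3}
  | 4 => {4}
  | 5 => {5}
  | 6 => {6}
  | 7 => {7}
  | 8 => {8}
  | 9 => {9}
  | 10 => {0, 1}
  | 11 => {0, 2}
  | 12 => {1, 3}
  | 13 => {2, 3}
  | 14 => {1, 4}
  | 15 => {2, 4}
  | 16 => {5, 6}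
  | 17 => {5, 7}
  | 18 => {6, 8}
  | 19 => {7, 8}
  | 20 => {6, 9}
  | 21 => {7, 9}
  | _ => {0, 5}

theorem cell_inj' : ∀ i < 23, ∀ j < 23, cell i = cell j → i = j := by decide +kernel

theorem cell_inj {i j : ℕ} (hi : i < 23) (hj : j < 23) (h : cell i = cell j) : i = j :=
  cell_inj' i hi j hj h

theorem cell_vertex : ∀ u : Fin 10, cell u.val = {u} := by decide +kernel

theorem adj_half : ∀ v w : Fin 10, adjB v w = true →
    ∃ h : Fin 26, ({v} : Finset (Fin 10)) = cell (SRC h) ∧ ({v, w} : Finset (Fin 10)) = cell (TGT h) := by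
  decide +kernel

theorem half_adj : ∀ h : Fin 26, ∃ v w : Fin 10, adjB v w = true ∧
    cell (SRC h) = ({v} : Finset (Fin 10)) ∧ cell (TGT h) = ({v, w} : Finset (Fin 10)) := by
  decide +kernel

/-- The index of a cell. -/
def idx (c : Finset (Fin 10)) : ℕ := ((List.range 23).find? fun i => decide (cell i = c)).getD 0

theorem idx_cell : ∀ i < 23, idx (cell i) = i := by decide +kernel

/-- The index of a half-edge. -/
def hidx (v t : ℕ) : ℕ := ((List.range 26).find? fun h => Nat.beq (SRC h) v && Nat.beq (TGT h) t).getD 0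

theorem hidx_eq : ∀ h < 26, hidx (SRC h) (TGT h) = h := by decide +kernel

theorem cell_edge_adj : ∀ i < 23, 10 ≤ i → ∃ v w : Fin 10, adjB v w = true ∧ cell i = {v, w} := by
  decide +kernel

theorem edge_cell : ∀ v w : Fin 10, adjB v w = true → ∃ i : Fin 23, ({v, w} : Finset (Fin 10)) = cell i := by
  decide +kernel

theorem triFree_gr : TriFree Gr := by
  have h : ∀ a b c : Fin 10, adjB a b = true → adjB b c = true → ¬ adjB a c = true := by decide +kernel
  exact h

/-- Every admissible elementary move is in the table of known moves. -/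
theorem chkE : allB (fun q => cond (evalid (q / 529) ((q % 529) / 23) (q % 23))
    (bit EFULL q) true) 13754 = true := by decide +kernel

/-- Validity of a sorted type. -/
def tvalid (x a b : ℕ) : Bool :=
  cond (Nat.ble x a) (cond (Nat.ble a b) (cond (Nat.beq x a) (cond (Nat.ble 10 x)
    (cond (Nat.beq a b) (Nat.ble 10 a) true) false) (cond (Nat.beq a b) (Nat.ble 10 a) true)) false) false

theorem chkTy : allB (fun q => cond (tvalid (q / 529) ((q % 529) / 23) (q % 23))
    (bit TFULL q) true) 12167 = true := by decide +kernel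

/-- The patterns of the squares that are not freely trivial. -/
def spl : List (ℕ × ℕ × ℕ × ℕ) :=
  [(2, 5, 11, 15), (2, 5, 15, 11), (3, 19, 19, 3), (3, 21, 21, 3), (3, 25, 25, 3), (3, 27, 27,
   3), (5, 19, 19, 5), (5, 27, 27, 5), (6, 0, 13, 1), (8, 15, 13, 9), (9, 19, 19, 9), (9, 27,
   27, 9), (11, 15, 2, 5), (11, 19, 19, 11), (11, 21, 21, 11), (11, 25, 25, 11), (11, 27, 27,
   11), (13, 1, 6, 0), (13, 9, 8, 15), (15, 11, 2, 5), (18, 21, 27, 31), (18, 21, 31, 27), (19,
   3, 3, 19), (19, 5, 5, 19), (19, 9, 9, 19), (19, 11, 11, 19), (21, 3, 3, 21), (21, 11, 11,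
   21), (22, 0, 29, 17), (24, 31, 29, 25), (25, 3, 3, 25), (25, 11, 11, 25), (27, 3, 3, 27),
   (27, 5, 5, 27), (27, 9, 9, 27), (27, 11, 11, 27), (27, 31, 18, 21), (29, 17, 22, 0), (29,
   25, 24, 31), (31, 27, 18, 21)]

/-- The check of a pattern. -/
def okp (l1 l2 l3 l4 : ℕ) : Bool :=
  cond (freeq l1 l2 l3 l4) true (spl.any fun q =>
    Nat.beq q.1 l1 && (Nat.beq q.2.1 l2 && (Nat.beq q.2.2.1 l3 && Nat.beq q.2.2.2 l4)))

/-- The check of a square. -/
def sqchk (h1 h2 c : ℕ) : Bool :=
  cond (Nat.beq (SRC h1) (SRC h2)) true (cond (Nat.beq c (SRC h1)) true (cond (Nat.beq c (SRC h2)) true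
    (okp (LB (ecode h1 (SRC h2) c)) (LB (ecode h2 (TGT h1) c)) (LB (ecode h2 (SRC h1) c))
      (LB (ecode h1 (TGT h2) c)))))

theorem chkSq : allB (fun q => sqchk (q / 598) ((q / 23) % 26) (q % 23)) 15548 = true := by
  decide +kernel

theorem chkT : loopT 2069 0 (setb 0 TBASE) 0 = true := by decide +kernel

theorem chkS : loopS 4259 0 EONE = true := by decide +kernel

end Pool.Agent.W584.GB
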