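import Pool.Agent.W584.GB.Comb3

set_option autoImplicit false

/-! # The right-angled Artin group and the patterns -/

namespace Pool.Agent.W584.GB

/-- The defining graph of the right-angled Artin group, as a table. -/
def HT : ℕ := 0x800300c0f83c0118060781f0

/-- Adjacency in the defining graph. -/
def hB (a b : Fin 10) : Bool := bit HT (a.val * 10 + b.val)

theorem hB_symm : ∀ a b : Fin 10, hB a b = true → hB b a = true := by decide +kernel

theorem hB_irrefl : ∀ a : Fin 10, ¬ hB a a = true := by decide +kernel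

/-- The defining graph. -/
def HG : SimpleGraph (Fin 10) where
  Adj a b := hB a b = true
  symm := ⟨fun a b h => hB_symm a b h⟩
  loopless := ⟨fun a h => hB_irrefl a h⟩

/-- The right-angled Artin group. -/
abbrev RA : Type := PresentedGroup {r : FreeGroup (Fin 10) | ∃ a b : Fin 10, HG.Adj a b ∧
  r = FreeGroup.of a * FreeGroup.of b * (FreeGroup.of a)⁻¹ * (FreeGroup.of b)⁻¹}

/-- The generators. -/
def gx (k : Fin 10) : RA := PresentedGroup.of k

theorem gx_comm {a b : Fin 10} (h : hB a b = true) : gx a * gx b = gx b * gx a := by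
  have h1 : (PresentedGroup.mk {r : FreeGroup (Fin 10) | ∃ a b : Fin 10, HG.Adj a b ∧
      r = FreeGroup.of a * FreeGroup.of b * (FreeGroup.of a)⁻¹ * (FreeGroup.of b)⁻¹})
      (FreeGroup.of a * FreeGroup.of b * (FreeGroup.of a)⁻¹ * (FreeGroup.of b)⁻¹) = 1 :=
    PresentedGroup.one_of_mem ⟨a, b, h, rfl⟩
  rw [map_mul, map_mul, map_mul, map_inv, map_inv] at h1
  have h2 : gx a * gx b * (gx a)⁻¹ * (gx b)⁻¹ = 1 := h1
  have h3 : gx a * gx b = (gx a * gx b * (gx a)⁻¹ * (gx b)⁻¹) * (gx b * gx a) := by group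
  rw [h3, h2, one_mul]

section letters

variable {π : Type} [Group π]

/-- The sixteen letters in terms of ten elements. -/
def lett (x : Fin 10 → π) : ℕ → π
  | 0 => x 2 * (x 0)⁻¹ * (x 4)⁻¹
  | 1 => x 1
  | 2 => x 2
  | 3 => x 4 * (x 3)⁻¹ * (x 2 * (x 0)⁻¹ * (x 4)⁻¹ * x 2)
  | 4 => x 3
  | 5 => x 0
  | 6 => (x 2)⁻¹ * x 4 * x 0 * (x 2)⁻¹
  | 7 => x 4
  | 8 => x 7 * (x 5)⁻¹ * (x 9)⁻¹
  | 9 => x 6
  | 10 => x 7
  | 11 => x 9 * (x 8)⁻¹ * (x 7 * (x 5)⁻¹ * (x 9)⁻¹ * x 7)
  | 12 => x 8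
  | 13 => x 5
  | 14 => (x 7)⁻¹ * x 9 * x 5 * (x 7)⁻¹
  | 15 => x 9
  | _ => 1

end letters

/-- The letters in the right-angled Artin group. -/
def yA : ℕ → RA := lett gx

theorem pattern_sound : ∀ q ∈ spl, val yA q.1 * val yA q.2.1 = val yA q.2.2.1 * val yA q.2.2.2 := by
  have c05 := gx_comm (a := 0) (b := 5) (by decide +kernel)
  have c06 := gx_comm (a := 0) (b := 6) (by decide +kernel)
  have c07 := gx_comm (a := 0) (b := 7) (by decide +kernel)
  have c08 := gx_comm (a := 0) (b := 8) (by decide +kernel)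
  have c15 := gx_comm (a := 1) (b := 5) (by decide +kernel)
  have c16 := gx_comm (a := 1) (b := 6) (by decide +kernel)
  have c17 := gx_comm (a := 1) (b := 7) (by decide +kernel)
  have c18 := gx_comm (a := 1) (b := 8) (by decide +kernel)
  have c25 := gx_comm (a := 2) (b := 5) (by decide +kernel)
  have c26 := gx_comm (a := 2) (b := 6) (by decide +kernel)
  have c35 := gx_comm (a := 3) (b := 5) (by decide +kernel)
  have c36 := gx_comm (a := 3) (b := 6) (by decide +kernel)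
  have c04 := gx_comm (a := 0) (b := 4) (by decide +kernel)
  have c59 := gx_comm (a := 5) (b := 9) (by decide +kernel)
  have w1 : (gx 2 * (gx 0)⁻¹ * (gx 4)⁻¹)⁻¹ * gx 2 = gx 4 * gx 0 := by group
  have w2 : (gx 7 * (gx 5)⁻¹ * (gx 9)⁻¹)⁻¹ * gx 7 = gx 9 * gx 5 := by group
  unfold spl
  simp only [List.forall_mem_cons, List.not_mem_nil, false_imp_iff, implies_true, and_true]
  refine ⟨?_, ?_, ?_, ?_, ?_, ?_, ?_, ?_, ?_, ?_, ?_, ?_, ?_, ?_, ?_, ?_, ?_, ?_, ?_, ?_, ?_, ?_, ?_, ?_,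
    ?_, ?_, ?_, ?_, ?_, ?_, ?_, ?_, ?_, ?_, ?_, ?_, ?_, ?_, ?_, ?_⟩
  all_goals simp only [val, yA]
  all_goals norm_num
  all_goals simp only [lett]
  all_goals first
    | assumption
    | (symm; assumption)
    | (rw [w1, c04])
    | (rw [w1])
    | (rw [w2, c59])
    | (rw [w2])
    | (rw [w1, ← c04])
    | (rw [w2, ← c59])
    | group

end Pool.Agent.W584.GB
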