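import Pool.Agent.W584.GB.Comb4

set_option autoImplicit false

/-! # The combinatorial input: universality of the labels -/

namespace Pool.Agent.W584.GB

/-! ### Cells and admissible types -/

theorem isCell_cell {i : ℕ} (hi : i < 23) : IsCell Gr (cell i) := by
  rcases lt_or_ge i 10 with h | h
  · exact Or.inl ⟨⟨i, h⟩, cell_vertex ⟨i, h⟩⟩
  · obtain ⟨v, w, hvw, hc⟩ := cell_edge_adj i hi h
    exact Or.inr ⟨v, w, hvw, hc⟩

theorem cell_of_isCell {c : Finset (Fin 10)} (hc : IsCell Gr c) : ∃ i < 23, c = cell i := by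
  rcases hc with ⟨u, rfl⟩ | ⟨u, w, huw, rfl⟩
  · exact ⟨u.val, by omega, (cell_vertex u).symm⟩
  · obtain ⟨i, hi⟩ := edge_cell u w huw
    exact ⟨i.val, i.isLt, hi⟩

theorem singleton_eq_cell {u : Fin 10} {i : ℕ} (hi : i < 23) :
    ({u} : Finset (Fin 10)) = cell i ↔ i = u.val := by
  constructor
  · intro h
    rw [← cell_vertex u] at h
    exact (cell_inj (by omega) hi h).symm
  · intro h
    rw [h, cell_vertex]

theorem adm_iff {x a b : ℕ} (hx : x < 23) (ha : a < 23) (hb : b < 23) :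
    Adm Gr (cell x ::ₘ cell a ::ₘ {cell b}) ↔
      (x = a → 10 ≤ x) ∧ (x = b → 10 ≤ x) ∧ (a = b → 10 ≤ a) := by
  have hcount : ∀ u : Fin 10, Multiset.count ({u} : Finset (Fin 10)) (cell x ::ₘ cell a ::ₘ {cell b}) =
      (if b = u.val then 1 else 0) + (if a = u.val then 1 else 0) + (if x = u.val then 1 else 0) := by
    intro u
    rw [Multiset.count_cons, Multiset.count_cons, Multiset.count_singleton]
    simp only [singleton_eq_cell hx, singleton_eq_cell ha, singleton_eq_cell hb]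
  constructor
  · rintro ⟨-, -, h⟩
    refine ⟨?_, ?_, ?_⟩
    · intro e
      by_contra h10
      have := h ⟨x, by omega⟩
      rw [hcount] at this
      rw [if_pos (show x = x from rfl), if_pos e.symm] at this
      omega
    · intro e
      by_contra h10
      have := h ⟨x, by omega⟩
      rw [hcount] at this
      rw [if_pos (show x = x from rfl), if_pos e.symm] at this
      omega
    · intro e
      by_contra h10
      have := h ⟨a, by omega⟩
      rw [hcount] at this
      rw [if_pos (show a = a from rfl), if_pos e.symm] at this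
      omega
  · rintro ⟨h1, h2, h3⟩
    refine ⟨by simp, ?_, ?_⟩
    · intro c hc
      simp only [Multiset.mem_cons, Multiset.mem_singleton] at hc
      rcases hc with rfl | rfl | rfl
      · exact isCell_cell hx
      · exact isCell_cell ha
      · exact isCell_cell hb
    · intro u
      rw [hcount]
      have := u.isLt
      split_ifs <;> omega

theorem adm_swap {x a b : ℕ} : (cell x ::ₘ cell a ::ₘ {cell b} : Multiset (Finset (Fin 10))) =
    cell a ::ₘ cell x ::ₘ {cell b} := Multiset.cons_swap _ _ _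

theorem pair_swap (a b : ℕ) : (cell a ::ₘ {cell b} : Multiset (Finset (Fin 10))) =
    cell b ::ₘ {cell a} := Multiset.cons_swap _ _ _

theorem adm_three {τ : Multiset (Finset (Fin 10))} (h : Adm Gr τ) :
    ∃ x a b, x < 23 ∧ a < 23 ∧ b < 23 ∧ τ = cell x ::ₘ cell a ::ₘ {cell b} := by
  obtain ⟨h1, h2, -⟩ := id h
  obtain ⟨c1, c2, c3, rfl⟩ := Multiset.card_eq_three.mp h1
  obtain ⟨x, hx, ex⟩ := cell_of_isCell (h2 c1 (by simp))
  obtain ⟨a, ha, ea⟩ := cell_of_isCell (h2 c2 (by simp))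
  obtain ⟨b, hb, eb⟩ := cell_of_isCell (h2 c3 (by simp))
  exact ⟨x, a, b, hx, ha, hb, by rw [ex, ea, eb]; rfl⟩

theorem adm_cons {c : Finset (Fin 10)} {M : Multiset (Finset (Fin 10))} (h : Adm Gr (c ::ₘ M)) :
    ∃ a b, a < 23 ∧ b < 23 ∧ M = cell a ::ₘ {cell b} := by
  obtain ⟨h1, h2, -⟩ := id h
  rw [Multiset.card_cons] at h1
  obtain ⟨c2, c3, rfl⟩ := Multiset.card_eq_two.mp (by omega : Multiset.card M = 2)
  obtain ⟨a, ha, ea⟩ := cell_of_isCell (h2 c2 (by simp))
  obtain ⟨b, hb, eb⟩ := cell_of_isCell (h2 c3 (by simp))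
  exact ⟨a, b, ha, hb, by rw [ea, eb]; rfl⟩

/-- A move of an admissible type in terms of indices. -/
theorem move_idx {v w : Fin 10} {M : Multiset (Finset (Fin 10))} (hvw : Gr.Adj v w)
    (hA : Adm Gr (({v} : Finset (Fin 10)) ::ₘ M)) :
    ∃ h a b, EV h a b ∧ a ≤ b ∧ ({v} : Finset (Fin 10)) = cell (SRC h) ∧
      ({v, w} : Finset (Fin 10)) = cell (TGT h) ∧ M = cell a ::ₘ {cell b} := by
  obtain ⟨h, h1, h2⟩ := adj_half v w hvw
  obtain ⟨a, b, ha, hb, rfl⟩ := adm_cons hA
  have hs := SRC_lt h.isLt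
  rw [h1] at hA
  obtain ⟨q1, q2, q3⟩ := (adm_iff (by omega) ha hb).mp hA
  rcases le_total a b with hab | hab
  · exact ⟨h.val, a, b, ⟨h.isLt, ha, hb, fun e => by have := q1 e.symm; omega,
      fun e => by have := q2 e.symm; omega, q3⟩, hab, h1, h2, rfl⟩
  · exact ⟨h.val, b, a, ⟨h.isLt, hb, ha, fun e => by have := q2 e.symm; omega,
      fun e => by have := q1 e.symm; omega, fun e => by have := q3 e.symm; omega⟩, hab, h1, h2,
      pair_swap a b⟩

theorem move_adm {h a b : ℕ} (hv : EV h a b) : ∃ v w : Fin 10, Gr.Adj v w ∧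
    cell (SRC h) = ({v} : Finset (Fin 10)) ∧ cell (TGT h) = ({v, w} : Finset (Fin 10)) ∧
    Adm Gr (({v} : Finset (Fin 10)) ::ₘ cell a ::ₘ {cell b}) := by
  obtain ⟨v, w, h1, h2, h3⟩ := half_adj ⟨h, hv.1⟩
  have hs := SRC_lt hv.1
  refine ⟨v, w, h1, h2, h3, ?_⟩
  have h2' : cell (SRC h) = ({v} : Finset (Fin 10)) := h2
  rw [← h2']
  refine (adm_iff (by omega) hv.2.1 hv.2.2.1).mpr ⟨fun e => absurd e.symm hv.2.2.2.1,
    fun e => absurd e.symm hv.2.2.2.2.1, hv.2.2.2.2.2⟩

/-! ### The labels -/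

/-- The code of an elementary move. -/
def codeE (h : ℕ) (m : Multiset ℕ) : ℕ := h * 529 + (m.sum - m.fold max 0) * 23 + m.fold max 0

theorem codeE_pair (h a b : ℕ) : codeE h (a ::ₘ {b}) = ecode h a b := by
  unfold codeE
  rw [Multiset.sum_cons, Multiset.sum_singleton, Multiset.fold_cons_left, Multiset.fold_singleton]
  rcases le_total a b with hab | hab
  · rw [ecode_of_le hab]
    have e1 : max a (max b 0) = b := by omega
    rw [e1]; congr 2; omega
  · rw [ecode_comm, ecode_of_le hab]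
    have e1 : max a (max b 0) = a := by omega
    rw [e1]; congr 2; omega

/-- The labels with values in the right-angled Artin group. -/
noncomputable def sF (c c' : Finset (Fin 10)) (M : Multiset (Finset (Fin 10))) : RA :=
  val yA (LB (codeE (hidx (idx c) (idx c')) (M.map idx)))

theorem sF_eq {h a b : ℕ} (hh : h < 26) (ha : a < 23) (hb : b < 23) :
    sF (cell (SRC h)) (cell (TGT h)) (cell a ::ₘ {cell b}) = val yA (LB (ecode h a b)) := by
  unfold sF
  have h1 := SRC_lt hh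
  have h2 := TGT_lt hh
  rw [idx_cell _ (by omega), idx_cell _ h2, hidx_eq _ hh, Multiset.map_cons, Multiset.map_singleton,
    idx_cell _ ha, idx_cell _ hb, codeE_pair]

theorem okp_sound {l1 l2 l3 l4 : ℕ} (h : okp l1 l2 l3 l4 = true) :
    val yA l1 * val yA l2 = val yA l3 * val yA l4 := by
  unfold okp at h
  rcases hf : freeq l1 l2 l3 l4 with _ | _
  · rw [hf] at h
    have h' : (spl.any fun q => Nat.beq q.1 l1 && (Nat.beq q.2.1 l2 &&
      (Nat.beq q.2.2.1 l3 && Nat.beq q.2.2.2 l4))) = true := h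
    obtain ⟨q, hq, hq'⟩ := List.any_eq_true.mp h'
    simp only [Bool.and_eq_true] at hq'
    obtain ⟨e1, e2, e3, e4⟩ := hq'
    have := pattern_sound q hq
    rw [beq_true e1, beq_true e2, beq_true e3, beq_true e4] at this
    exact this
  · exact freeq_sound yA hf

theorem squares_check {h1 h2 c : ℕ} (hh1 : h1 < 26) (hh2 : h2 < 26) (hc : c < 23)
    (k2 : SRC h1 ≠ SRC h2) (k3 : c ≠ SRC h1) (k4 : c ≠ SRC h2) :
    okp (LB (ecode h1 (SRC h2) c)) (LB (ecode h2 (TGT h1) c)) (LB (ecode h2 (SRC h1) c))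
      (LB (ecode h1 (TGT h2) c)) = true := by
  have h := allB_spec chkSq (h1 * 598 + h2 * 23 + c) (by omega)
  have e1 : (h1 * 598 + h2 * 23 + c) / 598 = h1 := by omega
  have e2 : ((h1 * 598 + h2 * 23 + c) / 23) % 26 = h2 := by omega
  have e3 : (h1 * 598 + h2 * 23 + c) % 23 = c := by omega
  simp only [e1, e2, e3] at h
  unfold sqchk at h
  have f1 : Nat.beq (SRC h1) (SRC h2) = false := by
    rw [Bool.eq_false_iff]; intro h7; exact k2 (beq_true h7)
  have f2 : Nat.beq c (SRC h1) = false := by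
    rw [Bool.eq_false_iff]; intro h7; exact k3 (beq_true h7)
  have f3 : Nat.beq c (SRC h2) = false := by
    rw [Bool.eq_false_iff]; intro h7; exact k4 (beq_true h7)
  rw [f1, f2, f3] at h
  exact h

/-- Unpacking the hypotheses of a square. -/
theorem square_idx {v w v' w' : Fin 10} {c : Finset (Fin 10)} (hvw : Gr.Adj v w) (hvw' : Gr.Adj v' w')
    (hA : Adm Gr (({v} : Finset (Fin 10)) ::ₘ ({v'} : Finset (Fin 10)) ::ₘ {c})) :
    ∃ h1 h2 k, h1 < 26 ∧ h2 < 26 ∧ k < 23 ∧ SRC h1 ≠ SRC h2 ∧ k ≠ SRC h1 ∧ k ≠ SRC h2 ∧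
      ({v} : Finset (Fin 10)) = cell (SRC h1) ∧ ({v, w} : Finset (Fin 10)) = cell (TGT h1) ∧
      ({v'} : Finset (Fin 10)) = cell (SRC h2) ∧ ({v', w'} : Finset (Fin 10)) = cell (TGT h2) ∧
      c = cell k := by
  obtain ⟨h1, p1, p2⟩ := adj_half v w hvw
  obtain ⟨h2, p3, p4⟩ := adj_half v' w' hvw'
  obtain ⟨k, hk, rfl⟩ := cell_of_isCell (hA.2.1 c (by simp))
  have s1 := SRC_lt h1.isLt
  have s2 := SRC_lt h2.isLt
  rw [p1, p3] at hA
  obtain ⟨q1, q2, q3⟩ := (adm_iff (by omega) (by omega) hk).mp hA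
  exact ⟨h1, h2, k, h1.isLt, h2.isLt, hk, fun e => by have := q1 e; omega,
    fun e => by have := q2 e.symm; omega, fun e => by have := q3 e.symm; omega, p1, p2, p3, p4, rfl⟩

theorem sq_sF : Sq Gr sF := by
  intro v w v' w' c hvw hvw' hA
  obtain ⟨h1, h2, k, hh1, hh2, hk, k1, k2, k3, p1, p2, p3, p4, rfl⟩ := square_idx hvw hvw' hA
  have s1 := SRC_lt hh1
  have s2 := SRC_lt hh2
  rw [p2, p4, p1, p3, sF_eq hh1 (by omega) hk, sF_eq hh2 (TGT_lt hh1) hk, sF_eq hh2 (by omega) hk,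
    sF_eq hh1 (TGT_lt hh2) hk]
  exact okp_sound (squares_check hh1 hh2 hk k1 k2 k3)

/-! ### Codes of types -/

/-- The code of a type. -/
def codeM (M : Multiset (Finset (Fin 10))) : ℕ :=
  ((M.map idx).fold min 100) * 529 +
    ((M.map idx).sum - (M.map idx).fold min 100 - (M.map idx).fold max 0) * 23 +
    (M.map idx).fold max 0

theorem codeM_eq {x a b : ℕ} (hx : x < 23) (ha : a < 23) (hb : b < 23) :
    codeM (cell x ::ₘ cell a ::ₘ {cell b}) = TC x a b := by
  unfold codeM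
  rw [Multiset.map_cons, Multiset.map_cons, Multiset.map_singleton, idx_cell _ hx, idx_cell _ ha,
    idx_cell _ hb, TC_eq]
  simp only [Multiset.sum_cons, Multiset.sum_singleton, Multiset.fold_cons_left, Multiset.fold_singleton]
  have e1 : min x (min a (min b 100)) = min x (min a b) := by omega
  have e2 : max x (max a (max b 0)) = max x (max a b) := by omega
  rw [e1, e2, Nat.add_assoc x a b]

/-- The type of a code. -/
def decM (t : ℕ) : Multiset (Finset (Fin 10)) :=
  cell (t / 529) ::ₘ cell ((t % 529) / 23) ::ₘ {cell (t % 23)}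

theorem sort3 (x a b : ℕ) : ∃ p q r, p ≤ q ∧ q ≤ r ∧
    (cell p ::ₘ cell q ::ₘ {cell r} : Multiset (Finset (Fin 10))) = cell x ::ₘ cell a ::ₘ {cell b} ∧
    (∀ n, x < n → a < n → b < n → r < n) ∧ TC x a b = p * 529 + q * 23 + r ∧
    ((x = a → 10 ≤ x) → (x = b → 10 ≤ x) → (a = b → 10 ≤ a) → (p = q → 10 ≤ p) ∧ (q = r → 10 ≤ q)) := by
  have hsw : ∀ x a b : ℕ, (cell x ::ₘ cell a ::ₘ {cell b} : Multiset (Finset (Fin 10))) =
    cell x ::ₘ cell b ::ₘ {cell a} := by
    intro x a b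
    rw [pair_swap a b]
  rw [TC_eq]
  rcases le_total x a with h1 | h1 <;> rcases le_total a b with h2 | h2 <;> rcases le_total x b with h3 | h3
  · exact ⟨x, a, b, h1, h2, rfl, fun n _ _ h => h, by omega, by omega⟩
  · exact ⟨x, a, b, h1, h2, rfl, fun n _ _ h => h, by omega, by omega⟩
  · exact ⟨x, b, a, h3, h2, hsw _ _ _, fun n _ h _ => h, by omega, by omega⟩
  · exact ⟨b, x, a, h3, h1, by rw [adm_swap, hsw], fun n _ h _ => h, by omega, by omega⟩
  · exact ⟨a, x, b, h1, h3, adm_swap, fun n _ _ h => h, by omega, by omega⟩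
  · exact ⟨a, b, x, h2, h3, by rw [hsw, adm_swap], fun n h _ _ => h, by omega, by omega⟩
  · exact ⟨b, a, x, h2, h1, by rw [adm_swap, hsw, adm_swap, hsw], fun n h _ _ => h, by omega, by omega⟩
  · exact ⟨b, a, x, h2, h1, by rw [hsw, adm_swap, hsw], fun n h _ _ => h, by omega, by omega⟩

theorem decM_TC {x a b : ℕ} (hx : x < 23) (ha : a < 23) (hb : b < 23) :
    decM (TC x a b) = cell x ::ₘ cell a ::ₘ {cell b} := by
  obtain ⟨p, q, r, h1, h2, h3, h4, h5, -⟩ := sort3 x a b
  have hr := h4 23 hx ha hb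
  rw [h5, ← h3]
  unfold decM
  have e1 : (p * 529 + q * 23 + r) / 529 = p := by omega
  have e2 : ((p * 529 + q * 23 + r) % 529) / 23 = q := by omega
  have e3 : (p * 529 + q * 23 + r) % 23 = r := by omega
  rw [e1, e2, e3]

theorem tvalid_of {p q r : ℕ} (h1 : p ≤ q) (h2 : q ≤ r) (h3 : p = q → 10 ≤ p) (h4 : q = r → 10 ≤ q) :
    tvalid p q r = true := by
  unfold tvalid
  rw [Nat.ble_eq_true_of_le h1, Nat.ble_eq_true_of_le h2]
  rcases e1 : Nat.beq p q with _ | _ <;> rcases e2 : Nat.beq q r with _ | _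
  · rfl
  · exact Nat.ble_eq_true_of_le (h4 (beq_true e2))
  · change cond (Nat.ble 10 p) true false = true
    rw [Nat.ble_eq_true_of_le (h3 (beq_true e1))]; rfl
  · change cond (Nat.ble 10 p) (Nat.ble 10 q) false = true
    rw [Nat.ble_eq_true_of_le (h3 (beq_true e1)), Nat.ble_eq_true_of_le (h4 (beq_true e2))]; rfl

theorem TC_known {x a b : ℕ} (hx : x < 23) (ha : a < 23) (hb : b < 23)
    (h1 : x = a → 10 ≤ x) (h2 : x = b → 10 ≤ x) (h3 : a = b → 10 ≤ a) : bit TFULL (TC x a b) = true := by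
  obtain ⟨p, q, r, k1, k2, -, k4, k5, k6⟩ := sort3 x a b
  have hr := k4 23 hx ha hb
  obtain ⟨k6, k7⟩ := k6 h1 h2 h3
  have h := allB_spec chkTy (p * 529 + q * 23 + r) (by omega)
  have e1 : (p * 529 + q * 23 + r) / 529 = p := by omega
  have e2 : ((p * 529 + q * 23 + r) % 529) / 23 = q := by omega
  have e3 : (p * 529 + q * 23 + r) % 23 = r := by omega
  simp only [e1, e2, e3] at h
  rw [tvalid_of k1 k2 k6 k7] at h
  rw [k5]; exact h

theorem E_known {h a b : ℕ} (hv : EV h a b) : bit EFULL (ecode h a b) = true := by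
  have key : ∀ h a b, EV h a b → a ≤ b → bit EFULL (ecode h a b) = true := by
    intro h a b hv hab
    obtain ⟨q1, q2, q3, -⟩ := id hv
    have h' := allB_spec chkE (h * 529 + a * 23 + b) (by omega)
    have e1 : (h * 529 + a * 23 + b) / 529 = h := by omega
    have e2 : ((h * 529 + a * 23 + b) % 529) / 23 = a := by omega
    have e3 : (h * 529 + a * 23 + b) % 23 = b := by omega
    simp only [e1, e2, e3] at h'
    rw [hv.evalid hab] at h'
    rw [ecode_of_le hab]; exact h'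
  rcases le_total a b with hab | hab
  · exact key h a b hv hab
  · rw [ecode_comm]; exact key h b a hv.symm hab

/-- The base type: three points on the edge joining the two halves. -/
def tau0 : Multiset (Finset (Fin 10)) := cell 22 ::ₘ cell 22 ::ₘ {cell 22}

theorem TC_base : TC 22 22 22 = TBASE := by decide +kernel

theorem conn_sF {S : Type} (α : Multiset (Finset (Fin 10)) → S)
    (hα : ∀ (v w : Fin 10) (M : Multiset (Finset (Fin 10))), Gr.Adj v w →
      Adm Gr (({v} : Finset (Fin 10)) ::ₘ M) → sF {v} {v, w} M = 1 →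
        α (({v} : Finset (Fin 10)) ::ₘ M) = α (({v, w} : Finset (Fin 10)) ::ₘ M))
    (τ : Multiset (Finset (Fin 10))) (hτ : Adm Gr τ) : α τ = α tau0 := by
  have h := loopT_conn (fun t => α (decM t)) ?_ _ _ _ _ chkT ?_
  · obtain ⟨x, a, b, hx, ha, hb, rfl⟩ := adm_three hτ
    obtain ⟨q1, q2, q3⟩ := (adm_iff hx ha hb).mp hτ
    have h1 := h _ (TC_known hx ha hb q1 q2 q3)
    simp only [decM_TC hx ha hb] at h1
    rw [h1, ← TC_base, decM_TC (by norm_num) (by norm_num) (by norm_num)]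
    rfl
  · intro h a b hv hl
    obtain ⟨hEV, hab⟩ := EV_of_evalid hv
    obtain ⟨v, w, hvw, h1, h2, hA⟩ := move_adm hEV
    have s1 := SRC_lt hEV.1
    have := hα v w _ hvw hA (by rw [← h1, ← h2, sF_eq hEV.1 hEV.2.1 hEV.2.2.1, hl]; rfl)
    rw [← h1, ← h2] at this
    simp only [← TC_of_le hab]
    rw [decM_TC (by omega) hEV.2.1 hEV.2.2.1, decM_TC (TGT_lt hEV.1) hEV.2.1 hEV.2.2.1]
    exact this
  · intro t ht
    rcases (bit_setb _ _ _).mp ht with rfl | ht
    · rfl
    · rw [bit_eq] at ht; simp at ht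

end Pool.Agent.W584.GB
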