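import Pool.Agent.W584.GB.Comb5

set_option autoImplicit false

/-! # The combinatorial input: existence of the gauge and generation -/

namespace Pool.Agent.W584.GB

/-- Half-edge of the generating move of a letter. -/
def gh : ℕ → ℕ
  | 0 => 1
  | 1 => 2
  | 2 => 1
  | 3 => 4
  | 4 => 5
  | 5 => 2
  | 6 => 6
  | 7 => 0
  | 8 => 14
  | 9 => 15
  | 10 => 14
  | 11 => 17
  | 12 => 18
  | 13 => 15
  | 14 => 19
  | _ => 13

/-- First cell of the generating move of a letter. -/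
def ga : ℕ → ℕ
  | 0 => 3
  | 1 => 5
  | 2 => 5
  | 3 => 4
  | 4 => 0
  | 5 => 2
  | 6 => 1
  | 7 => 4
  | 8 => 8
  | 9 => 0
  | 10 => 0
  | 11 => 9
  | 12 => 0
  | 13 => 7
  | 14 => 6
  | _ => 9

/-- Second cell of the generating move of a letter. -/
def gb : ℕ → ℕ
  | 0 => 10
  | 1 => 10
  | 2 => 10
  | 3 => 14
  | 4 => 3
  | 5 => 11
  | 6 => 3
  | 7 => 11
  | 8 => 16
  | 9 => 16
  | 10 => 16
  | 11 => 20
  | 12 => 8
  | 13 => 17
  | 14 => 8
  | _ => 17

theorem gen_facts : ∀ k < 16, evalid (gh k) (ga k) (gb k) = true ∧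
    LB (ecode (gh k) (ga k) (gb k)) = 2 * k + 1 := by decide +kernel

/-- The known moves after adding the generating moves of the letters `< n` . -/
def addG (n : ℕ) : ℕ := Nat.rec ETREE (fun k E => setb E (ecode (gh k) (ga k) (gb k))) n

theorem addG_16 : addG 16 = EONE := by decide +kernel

section

variable {π : Type} [Group π] (L : ℕ → ℕ → ℕ → π)

/-- The letters of a labelling. -/
def yL (k : ℕ) : π := if k < 16 then L (gh k) (ga k) (gb k) else 1

theorem InvS_addG (hsym : ∀ h a b, L h a b = L h b a) (h0 : InvS L (yL L) ETREE) :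
    ∀ n ≤ 16, InvS L (yL L) (addG n) := by
  intro n
  induction n with
  | zero => intro _; exact h0
  | succ n ih =>
    intro hn
    obtain ⟨h1, h2⟩ := gen_facts n (by omega)
    refine InvS_set L _ hsym (ih (by omega)) (EV_of_evalid h1).1 ?_
    rw [h2]
    unfold val yL
    rw [if_neg (by omega), if_pos (by omega), if_pos (by omega)]
    have e : (2 * n + 1) / 2 = n := by omega
    rw [e]

theorem rel_of (hsq : Squares L) (hI : InvS L (yL L) EFULL) (h1 h2 c : ℕ)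
    (hc : (Nat.ble h1 25 && (Nat.ble h2 25 && (Nat.ble c 22 && (!Nat.beq (SRC h1) (SRC h2) &&
      (!Nat.beq c (SRC h1) && !Nat.beq c (SRC h2)))))) = true) :
    val (yL L) (LB (ecode h1 (SRC h2) c)) * val (yL L) (LB (ecode h2 (TGT h1) c)) =
      val (yL L) (LB (ecode h2 (SRC h1) c)) * val (yL L) (LB (ecode h1 (TGT h2) c)) := by
  simp only [Bool.and_eq_true, Bool.not_eq_true'] at hc
  obtain ⟨b1, b2, b3, b4, b5, b6⟩ := hc
  have hh1 : h1 < 26 := by have := ble_true b1; omega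
  have hh2 : h2 < 26 := by have := ble_true b2; omega
  have hc' : c < 23 := by have := ble_true b3; omega
  have k2 := beq_false b4
  have k3 := beq_false b5
  have k4 := beq_false b6
  have s1 := SRC_lt hh1
  have s2 := SRC_lt hh2
  have t1 := TGT_ge hh1
  have t1' := TGT_lt hh1
  have t2 := TGT_ge hh2
  have t2' := TGT_lt hh2
  have v1 : EV h1 (SRC h2) c := ⟨hh1, by omega, hc', fun e => k2 e.symm, k3, fun e => absurd e.symm k4⟩
  have v2 : EV h2 (TGT h1) c := ⟨hh2, t1', hc', by omega, k4, fun e => by omega⟩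
  have v3 : EV h2 (SRC h1) c := ⟨hh2, by omega, hc', k2, k4, fun e => absurd e.symm k3⟩
  have v4 : EV h1 (TGT h2) c := ⟨hh1, t2', hc', by omega, k3, fun e => by omega⟩
  rw [← hI _ _ _ v1 (E_known v1), ← hI _ _ _ v2 (E_known v2), ← hI _ _ _ v3 (E_known v3),
    ← hI _ _ _ v4 (E_known v4)]
  exact hsq h1 h2 c hh1 hh2 hc' k2 k3 k4

theorem rel_of' (hsq : Squares L) (hI : InvS L (yL L) EFULL) (h1 h2 c l1 l2 l3 l4 : ℕ)
    (hc : ((Nat.ble h1 25 && (Nat.ble h2 25 && (Nat.ble c 22 && (!Nat.beq (SRC h1) (SRC h2) &&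
      (!Nat.beq c (SRC h1) && !Nat.beq c (SRC h2)))))) &&
      (Nat.beq (LB (ecode h1 (SRC h2) c)) l1 && (Nat.beq (LB (ecode h2 (TGT h1) c)) l2 &&
      (Nat.beq (LB (ecode h2 (SRC h1) c)) l3 && Nat.beq (LB (ecode h1 (TGT h2) c)) l4)))) = true) :
    val (yL L) l1 * val (yL L) l2 = val (yL L) l3 * val (yL L) l4 := by
  rw [Bool.and_eq_true] at hc
  obtain ⟨hc1, hc2⟩ := hc
  simp only [Bool.and_eq_true] at hc2
  obtain ⟨b1, b2, b3, b4⟩ := hc2
  have := rel_of L hsq hI h1 h2 c hc1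
  rw [beq_true b1, beq_true b2, beq_true b3, beq_true b4] at this
  exact this

/-- The ten generators among the letters. -/
def pick (y : ℕ → π) : Fin 10 → π := fun k =>
  y ((([5, 1, 2, 4, 7, 13, 9, 10, 12, 15] : List ℕ)[k.val]?).getD 0)

theorem pick_vals (y : ℕ → π) : pick y 0 = y 5 ∧ pick y 1 = y 1 ∧ pick y 2 = y 2 ∧ pick y 3 = y 4 ∧
    pick y 4 = y 7 ∧ pick y 5 = y 13 ∧ pick y 6 = y 9 ∧ pick y 7 = y 10 ∧ pick y 8 = y 12 ∧
    pick y 9 = y 15 := ⟨rfl, rfl, rfl, rfl, rfl, rfl, rfl, rfl, rfl, rfl⟩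

/-- The relations between the letters. -/
structure Rels (y : ℕ → π) : Prop where
  c05 : y 5 * y 13 = y 13 * y 5
  c06 : y 5 * y 9 = y 9 * y 5
  c07 : y 5 * y 10 = y 10 * y 5
  c08 : y 5 * y 12 = y 12 * y 5
  c15 : y 1 * y 13 = y 13 * y 1
  c16 : y 1 * y 9 = y 9 * y 1
  c17 : y 1 * y 10 = y 10 * y 1
  c18 : y 1 * y 12 = y 12 * y 1
  c25 : y 2 * y 13 = y 13 * y 2
  c26 : y 2 * y 9 = y 9 * y 2
  c35 : y 4 * y 13 = y 13 * y 4
  c36 : y 4 * y 9 = y 9 * y 4
  l1 : (y 0)⁻¹ * y 2 = y 5 * y 7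
  l2 : y 7 * y 5 = (y 0)⁻¹ * y 2
  l3 : (y 2)⁻¹ = y 6 * y 0
  l4 : (y 3)⁻¹ * y 7 = y 6 * y 4
  r1 : (y 8)⁻¹ * y 10 = y 13 * y 15
  r2 : y 15 * y 13 = (y 8)⁻¹ * y 10
  r3 : (y 10)⁻¹ = y 14 * y 8
  r4 : (y 11)⁻¹ * y 15 = y 14 * y 12
  big : ∀ k, 16 ≤ k → y k = 1

theorem rels_yL (hsq : Squares L) (hI : InvS L (yL L) EFULL) : Rels (yL L) where
  c05 := rel_of' L hsq hI 4 17 0 11 27 27 11 (by decide +kernel)
  c06 := rel_of' L hsq hI 4 15 16 11 19 19 11 (by decide +kernel)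
  c07 := rel_of' L hsq hI 4 14 16 11 21 21 11 (by decide +kernel)
  c08 := rel_of' L hsq hI 4 18 8 11 25 25 11 (by decide +kernel)
  c15 := rel_of' L hsq hI 2 17 10 3 27 27 3 (by decide +kernel)
  c16 := rel_of' L hsq hI 2 16 10 3 19 19 3 (by decide +kernel)
  c17 := rel_of' L hsq hI 3 14 16 3 21 21 3 (by decide +kernel)
  c18 := rel_of' L hsq hI 3 18 8 3 25 25 3 (by decide +kernel)
  c25 := rel_of' L hsq hI 1 17 10 5 27 27 5 (by decide +kernel)
  c26 := rel_of' L hsq hI 1 16 10 5 19 19 5 (by decide +kernel)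
  c35 := rel_of' L hsq hI 5 17 3 9 27 27 9 (by decide +kernel)
  c36 := rel_of' L hsq hI 5 16 3 9 19 19 9 (by decide +kernel)
  l1 := rel_of' L hsq hI 0 8 11 2 5 11 15 (by decide +kernel)
  l2 := rel_of' L hsq hI 2 4 10 15 11 2 5 (by decide +kernel)
  l3 := by
    have := rel_of' L hsq hI 3 6 3 6 0 13 1 (by decide +kernel)
    rw [val_zero, mul_one] at this
    exact this
  l4 := rel_of' L hsq hI 5 6 3 8 15 13 9 (by decide +kernel)
  r1 := rel_of' L hsq hI 13 21 17 18 21 27 31 (by decide +kernel)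
  r2 := rel_of' L hsq hI 15 17 16 31 27 18 21 (by decide +kernel)
  r3 := by
    have := rel_of' L hsq hI 16 19 8 22 0 29 17 (by decide +kernel)
    rw [val_zero, mul_one] at this
    exact this
  r4 := rel_of' L hsq hI 18 19 8 24 31 29 25 (by decide +kernel)
  big := by
    intro k hk
    unfold yL
    rw [if_neg (by omega)]

theorem adj_list : ∀ a b : Fin 10, hB a b = true → a < b →
    (a, b) ∈ ([(0, 5), (0, 6), (0, 7), (0, 8), (1, 5), (1, 6), (1, 7), (1, 8), (2, 5), (2, 6), (3, 5),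
      (3, 6), (0, 4), (5, 9)] : List (Fin 10 × Fin 10)) := by decide +kernel

theorem pick_comm {y : ℕ → π} (hR : Rels y) (a b : Fin 10) (h : hB a b = true) :
    pick y a * pick y b = pick y b * pick y a := by
  have key : ∀ a b : Fin 10, hB a b = true → a < b → pick y a * pick y b = pick y b * pick y a := by
    intro a b h hlt
    have hm := adj_list a b h hlt
    have c04 : y 5 * y 7 = y 7 * y 5 := by rw [hR.l2, hR.l1]
    have c59 : y 13 * y 15 = y 15 * y 13 := by rw [hR.r2, hR.r1]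
    simp only [List.mem_cons, Prod.mk.injEq, List.not_mem_nil, or_false] at hm
    rcases hm with ⟨rfl, rfl⟩ | ⟨rfl, rfl⟩ | ⟨rfl, rfl⟩ | ⟨rfl, rfl⟩ | ⟨rfl, rfl⟩ | ⟨rfl, rfl⟩ | ⟨rfl, rfl⟩ |
      ⟨rfl, rfl⟩ | ⟨rfl, rfl⟩ | ⟨rfl, rfl⟩ | ⟨rfl, rfl⟩ | ⟨rfl, rfl⟩ | ⟨rfl, rfl⟩ | ⟨rfl, rfl⟩
    · exact hR.c05
    · exact hR.c06
    · exact hR.c07
    · exact hR.c08
    · exact hR.c15
    · exact hR.c16
    · exact hR.c17
    · exact hR.c18
    · exact hR.c25
    · exact hR.c26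
    · exact hR.c35
    · exact hR.c36
    · exact c04
    · exact c59
  rcases lt_trichotomy a b with h1 | h1 | h1
  · exact key a b h h1
  · rw [h1]
  · exact (key b a (hB_symm a b h) h1).symm

/-- The homomorphism from the right-angled Artin group given by the letters. -/
noncomputable def PsiH {y : ℕ → π} (hR : Rels y) : RA →* π :=
  PresentedGroup.toGroup (f := pick y) (by
    rintro r ⟨a, b, hab, rfl⟩
    rw [map_mul, map_mul, map_mul, map_inv, map_inv, FreeGroup.lift_apply_of, FreeGroup.lift_apply_of,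
      pick_comm hR a b hab]
    group)

theorem PsiH_gx {y : ℕ → π} (hR : Rels y) (k : Fin 10) : PsiH hR (gx k) = pick y k :=
  PresentedGroup.toGroup.of _

theorem PsiH_lett {y : ℕ → π} (hR : Rels y) (k : ℕ) : PsiH hR (yA k) = y k := by
  have c04 : y 5 * y 7 = y 7 * y 5 := by rw [hR.l2, hR.l1]
  have c59 : y 13 * y 15 = y 15 * y 13 := by rw [hR.r2, hR.r1]
  have e0 : y 0 = y 2 * (y 5)⁻¹ * (y 7)⁻¹ := by
    have h := hR.l2
    have : y 0 = y 2 * (y 7 * y 5)⁻¹ := by rw [h]; group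
    rw [this]; group
  have e6 : y 6 = (y 2)⁻¹ * y 7 * y 5 * (y 2)⁻¹ := by
    have h := hR.l3
    have : y 6 = (y 2)⁻¹ * (y 0)⁻¹ := by rw [h]; group
    rw [this, e0]; group
  have e3 : y 3 = y 7 * (y 4)⁻¹ * (y 2 * (y 5)⁻¹ * (y 7)⁻¹ * y 2) := by
    have h := hR.l4
    have : y 3 = y 7 * (y 6 * y 4)⁻¹ := by rw [← h]; group
    rw [this, e6]; group
  have f0 : y 8 = y 10 * (y 13)⁻¹ * (y 15)⁻¹ := by
    have h := hR.r2
    have : y 8 = y 10 * (y 15 * y 13)⁻¹ := by rw [h]; group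
    rw [this]; group
  have f6 : y 14 = (y 10)⁻¹ * y 15 * y 13 * (y 10)⁻¹ := by
    have h := hR.r3
    have : y 14 = (y 10)⁻¹ * (y 8)⁻¹ := by rw [h]; group
    rw [this, f0]; group
  have f3 : y 11 = y 15 * (y 12)⁻¹ * (y 10 * (y 13)⁻¹ * (y 15)⁻¹ * y 10) := by
    have h := hR.r4
    have : y 11 = y 15 * (y 14 * y 12)⁻¹ := by rw [← h]; group
    rw [this, f6]; group
  obtain ⟨p0, p1, p2, p3, p4, p5, p6, p7, p8, p9⟩ := pick_vals y
  rcases lt_or_ge k 16 with hk | hk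
  · interval_cases k <;> simp only [yA, lett, map_mul, map_inv, PsiH_gx, p0, p1, p2, p3, p4, p5, p6, p7,
      p8, p9]
    · rw [e0]
    · rw [e3]
    · rw [e6]
    · rw [f0]
    · rw [f3]
    · rw [f6]
  · rw [hR.big k hk]
    obtain ⟨m, rfl⟩ : ∃ m, k = m + 16 := ⟨k - 16, by omega⟩
    have : yA (m + 16) = 1 := rfl
    rw [this, map_one]

theorem PsiH_val {y : ℕ → π} (hR : Rels y) (l : ℕ) : PsiH hR (val yA l) = val y l := by
  unfold val
  split_ifs
  · exact map_one _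
  · exact PsiH_lett hR _
  · rw [map_inv, PsiH_lett]

end

theorem ex_sF (π : Type) [Group π] (l : Finset (Fin 10) → Finset (Fin 10) → Multiset (Finset (Fin 10)) → π)
    (hl : Sq Gr l) :
    ∃ (φ : Multiset (Finset (Fin 10)) → π) (Ψ : RA →* π), φ tau0 = 1 ∧
      ∀ (v w : Fin 10) (M : Multiset (Finset (Fin 10))), Gr.Adj v w →
        Adm Gr (({v} : Finset (Fin 10)) ::ₘ M) →
        l {v} {v, w} M = (φ (({v} : Finset (Fin 10)) ::ₘ M))⁻¹ * Ψ (sF {v} {v, w} M) *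
          φ (({v, w} : Finset (Fin 10)) ::ₘ M) := by
  -- the raw labels
  let L0 : ℕ → ℕ → ℕ → π := fun h a b => l (cell (SRC h)) (cell (TGT h)) (cell a ::ₘ {cell b})
  have hL0sym : ∀ h a b, L0 h a b = L0 h b a := by
    intro h a b
    change l _ _ _ = l _ _ _
    rw [pair_swap a b]
  have hL0sq : Squares L0 := by
    intro h1 h2 c hh1 hh2 hc k2 k3 k4
    obtain ⟨v, w, hvw, q1, q2⟩ := half_adj ⟨h1, hh1⟩
    obtain ⟨v', w', hvw', q3, q4⟩ := half_adj ⟨h2, hh2⟩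
    have s1 := SRC_lt hh1
    have s2 := SRC_lt hh2
    have hA : Adm Gr (cell (SRC h1) ::ₘ cell (SRC h2) ::ₘ {cell c}) :=
      (adm_iff (by omega) (by omega) hc).mpr ⟨fun e => absurd e k2, fun e => absurd e.symm k3,
        fun e => absurd e.symm k4⟩
    change cell (SRC h1) = _ at q1
    change cell (TGT h1) = _ at q2
    change cell (SRC h2) = _ at q3
    change cell (TGT h2) = _ at q4
    have hA' : Adm Gr (({v} : Finset (Fin 10)) ::ₘ ({v'} : Finset (Fin 10)) ::ₘ {cell c}) := by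
      rw [← q1, ← q3]; exact hA
    have := hl v w v' w' (cell c) hvw hvw' hA'
    rw [← q1, ← q2, ← q3, ← q4] at this
    exact this
  -- the gauge
  obtain ⟨φ, hφ0, -, hφ⟩ := loopT_gauge L0 _ _ _ _ chkT ⟨fun _ => 1, rfl,
    (bit_setb _ _ _).mpr (Or.inl rfl), by
      intro h a b _ hb
      rw [bit_eq] at hb; simp at hb⟩
  let L : ℕ → ℕ → ℕ → π := fun h a b =>
    φ (TC (SRC h) a b) * L0 h a b * (φ (TC (TGT h) a b))⁻¹
  have hLsym : ∀ h a b, L h a b = L h b a := by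
    intro h a b
    change _ * _ * _ = _ * _ * _
    rw [hL0sym h a b, TC_comm' (SRC h) a b, TC_comm' (TGT h) a b]
  have hLsq : Squares L := by
    intro h1 h2 c hh1 hh2 hc k2 k3 k4
    have h := hL0sq h1 h2 c hh1 hh2 hc k2 k3 k4
    change (φ (TC (SRC h1) (SRC h2) c) * L0 h1 (SRC h2) c * (φ (TC (TGT h1) (SRC h2) c))⁻¹) *
        (φ (TC (SRC h2) (TGT h1) c) * L0 h2 (TGT h1) c * (φ (TC (TGT h2) (TGT h1) c))⁻¹) =
      (φ (TC (SRC h2) (SRC h1) c) * L0 h2 (SRC h1) c * (φ (TC (TGT h2) (SRC h1) c))⁻¹) *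
        (φ (TC (SRC h1) (TGT h2) c) * L0 h1 (TGT h2) c * (φ (TC (TGT h1) (TGT h2) c))⁻¹)
    rw [TC_swap (SRC h2) (TGT h1) c, TC_swap (TGT h2) (TGT h1) c, TC_swap (SRC h2) (SRC h1) c,
      TC_swap (SRC h1) (TGT h2) c]
    have e1 : ∀ p x q y r : π, (p * x * q⁻¹) * (q * y * r⁻¹) = p * (x * y) * r⁻¹ := by
      intro p x q y r; group
    rw [e1, e1, h]
  have hI0 : InvS L (yL L) ETREE := by
    have key : ∀ h a b, EV h a b → a ≤ b → bit ETREE (ecode h a b) = true →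
        L h a b = val (yL L) (LB (ecode h a b)) := by
      intro h a b hv hab hb
      obtain ⟨-, -, g1, g2⟩ := hφ h a b (hv.evalid hab) hb
      rw [g2, val_zero]
      change φ (TC (SRC h) a b) * L0 h a b * (φ (TC (TGT h) a b))⁻¹ = 1
      rw [TC_of_le hab, TC_of_le hab, g1, mul_inv_cancel]
    intro h a b hv hb
    rcases le_total a b with hab | hab
    · exact key h a b hv hab hb
    · rw [hLsym, ecode_comm]
      rw [ecode_comm] at hb
      exact key h b a hv.symm hab hb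
  have hI1 : InvS L (yL L) EONE := by
    rw [← addG_16]; exact InvS_addG L hLsym hI0 16 le_rfl
  have hI : InvS L (yL L) EFULL := loopS_sound L _ hLsym hLsq _ _ _ chkS hI1
  have hR : Rels (yL L) := rels_yL L hLsq hI
  refine ⟨fun M => φ (codeM M), PsiH hR, ?_, ?_⟩
  · change φ (codeM tau0) = 1
    rw [tau0, codeM_eq (by norm_num) (by norm_num) (by norm_num), TC_base, hφ0]
  · intro v w M hvw hA
    obtain ⟨h, a, b, hv, hab, e1, e2, rfl⟩ := move_idx hvw hA
    have s1 := SRC_lt hv.1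
    rw [e2, e1, sF_eq hv.1 hv.2.1 hv.2.2.1, PsiH_val, ← hI h a b hv (E_known hv)]
    change L0 h a b = (φ (codeM _))⁻¹ * (φ (TC (SRC h) a b) * L0 h a b * (φ (TC (TGT h) a b))⁻¹) *
      φ (codeM _)
    rw [codeM_eq (by omega) hv.2.1 hv.2.2.1, codeM_eq (TGT_lt hv.1) hv.2.1 hv.2.2.1]
    group

theorem gen_sF : Subgroup.closure {a : RA | ∃ (v w : Fin 10) (M : Multiset (Finset (Fin 10))),
    Gr.Adj v w ∧ Adm Gr (({v} : Finset (Fin 10)) ::ₘ M) ∧ a = sF {v} {v, w} M} = ⊤ := by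
  rw [eq_top_iff, ← PresentedGroup.closure_range_of, Subgroup.closure_le]
  rintro _ ⟨k, rfl⟩
  apply Subgroup.subset_closure
  have key : ∀ j < 16, yA j ∈ {a : RA | ∃ (v w : Fin 10) (M : Multiset (Finset (Fin 10))),
      Gr.Adj v w ∧ Adm Gr (({v} : Finset (Fin 10)) ::ₘ M) ∧ a = sF {v} {v, w} M} := by
    intro j hj
    obtain ⟨h1, h2⟩ := gen_facts j hj
    obtain ⟨hEV, hab⟩ := EV_of_evalid h1
    obtain ⟨v, w, hvw, q1, q2, hA⟩ := move_adm hEV
    refine ⟨v, w, _, hvw, hA, ?_⟩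
    rw [← q1, ← q2, sF_eq hEV.1 hEV.2.1 hEV.2.2.1, h2]
    unfold val
    rw [if_neg (by omega), if_pos (by omega)]
    congr 1; omega
  fin_cases k
  · exact key 5 (by norm_num)
  · exact key 1 (by norm_num)
  · exact key 2 (by norm_num)
  · exact key 4 (by norm_num)
  · exact key 7 (by norm_num)
  · exact key 13 (by norm_num)
  · exact key 9 (by norm_num)
  · exact key 10 (by norm_num)
  · exact key 12 (by norm_num)
  · exact key 15 (by norm_num)

theorem univ_sF : Univ Gr RA sF tau0 where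
  adm := (adm_iff (by norm_num) (by norm_num) (by norm_num)).mpr
    ⟨fun _ => by norm_num, fun _ => by norm_num, fun _ => by norm_num⟩
  sq := sq_sF
  ex := ex_sF
  conn := fun S α hα τ hτ => conn_sF α hα τ hτ
  gen := gen_sF

end Pool.Agent.W584.GB
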