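import Mathlib

set_option autoImplicit false

/-!
# Definitions and sub-statements for the project GB (graph braid groups, MP_340815_al)

The configuration space of three unordered points in the geometric realisation of a simple graph, the star
neighbourhoods of a configuration, and the abstract van Kampen statements used to compute its fundamental
group.
-/

namespace Pool.Agent.W584.GB

/-! ### Spaces with minimal simply connected neighbourhoods -/

/-- A space in which every point `x` has a chosen open simply connected neighbourhood `U x`, such that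
`U y ⊆ U x` for every `y ∈ U x`. -/
structure Nbhd (X : Type) [TopologicalSpace X] where
  U : X → Set X
  isOpen : ∀ x, IsOpen (U x)
  mem : ∀ x, x ∈ U x
  sub : ∀ x, ∀ y ∈ U x, U y ⊆ U x
  sc : ∀ x, SimplyConnectedSpace (U x)

/-- Generation: every path class is a composite of classes of paths inside the neighbourhoods, based at
their centre. -/
def S_gen : Prop :=
  ∀ (X : Type) [TopologicalSpace X] (N : Nbhd X)
    (P : ∀ x y : X, Path.Homotopic.Quotient x y → Prop),
    (∀ (x y z : X) (p : Path.Homotopic.Quotient x y) (q : Path.Homotopic.Quotient y z),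
      P x y p → P y z q → P x z (p.trans q)) →
    (∀ (x y : X) (p : Path.Homotopic.Quotient x y), P x y p → P y x p.symm) →
    (∀ (x y : X) (p : Path x y), (∀ t, p t ∈ N.U x) → P x y (Path.Homotopic.Quotient.mk p)) →
    ∀ (x y : X) (p : Path.Homotopic.Quotient x y), P x y p

/-- Holonomy: a group valued function on pairs `y ∈ U x` which is multiplicative along chains
`y ∈ U x`, `z ∈ U y` extends to all path classes. -/
def S_hol : Prop :=
  ∀ (X : Type) [TopologicalSpace X] (N : Nbhd X) (A : Type) [Group A] (g : X → X → A),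
    (∀ x, ∀ y ∈ N.U x, ∀ z ∈ N.U y, g x y * g y z = g x z) →
    ∃ Hol : ∀ x y : X, Path.Homotopic.Quotient x y → A,
      (∀ (x y z : X) (p : Path.Homotopic.Quotient x y) (q : Path.Homotopic.Quotient y z),
        Hol x z (p.trans q) = Hol x y p * Hol y z q) ∧
      (∀ (x y : X) (p : Path x y), (∀ t, p t ∈ N.U x) →
        Hol x y (Path.Homotopic.Quotient.mk p) = g x y)

/-- The abstract van Kampen theorem. -/
def S_vk : Prop :=
  ∀ (X : Type) [TopologicalSpace X] (N : Nbhd X) (A : Type) [Group A] (g : X → X → A) (x0 : X),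
    (∀ x, ∀ y ∈ N.U x, ∀ z ∈ N.U y, g x y * g y z = g x z) →
    (∀ (π : Type) [Group π] (k : X → X → π),
      (∀ x, ∀ y ∈ N.U x, ∀ z ∈ N.U y, k x y * k y z = k x z) →
      ∃ (φ : X → π) (Ψ : A →* π), φ x0 = 1 ∧
        ∀ x, ∀ y ∈ N.U x, k x y = (φ x)⁻¹ * Ψ (g x y) * φ y) →
    (∀ (S : Type) (α : X → S), (∀ x, ∀ y ∈ N.U x, g x y = 1 → α x = α y) → ∀ x, α x = α x0) →
    Subgroup.closure {a : A | ∃ x, ∃ y ∈ N.U x, a = g x y} = ⊤ →
    Nonempty (FundamentalGroup X x0 ≃* A)

/-! ### The configuration space -/

section conf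

variable {V : Type} [Fintype V] [DecidableEq V] (G : SimpleGraph V)

/-- Points of the geometric realisation of `G`, as in the frozen statement. -/
abbrev Pt : Type :=
  {p : V → ℝ // ∃ u v : V, (u = v ∨ G.Adj u v) ∧
    ∃ t : ℝ, 0 ≤ t ∧ t ≤ 1 ∧ p = t • Pi.single u (1 : ℝ) + (1 - t) • Pi.single v (1 : ℝ)}

/-- Ordered configurations of three points. -/
abbrev Conf : Type := {f : Fin 3 → Pt G // Function.Injective f}

/-- The equivalence by permutations. -/
abbrev PermRel (f g : Conf G) : Prop := ∃ σ : Equiv.Perm (Fin 3), g.1 = f.1 ∘ σ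

/-- Unordered configurations of three points. -/
abbrev UC : Type := Quot (PermRel G)

variable {G}

/-- Permuting the three points. -/
def Conf.perm (f : Conf G) (σ : Equiv.Perm (Fin 3)) : Conf G :=
  ⟨f.1 ∘ σ, f.2.comp σ.injective⟩

/-- The support of a point: a vertex or the two ends of an edge. -/
noncomputable def supp (p : Pt G) : Finset V := Finset.univ.filter fun u => p.1 u ≠ 0

/-- The open star of an ordered configuration: the points may leave their vertices into adjacent edges, and
the order of the points on each closed edge is kept. -/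
def St (f : Conf G) : Set (Conf G) :=
  {f' | (∀ i u, 0 < (f.1 i).1 u → 0 < (f'.1 i).1 u) ∧
    ∀ i j u w, G.Adj u w →
      (∀ z, z ≠ u → z ≠ w → (f'.1 i).1 z = 0) → (∀ z, z ≠ u → z ≠ w → (f'.1 j).1 z = 0) →
      (f.1 i).1 u < (f.1 j).1 u → (f'.1 i).1 u < (f'.1 j).1 u}

/-- `G` has no triangle. -/
def TriFree (G : SimpleGraph V) : Prop := ∀ a b c, G.Adj a b → G.Adj b c → ¬ G.Adj a c

/-- A cell: a vertex or an edge, as a finite set of vertices. -/
def IsCell (G : SimpleGraph V) (c : Finset V) : Prop :=
  (∃ u, c = {u}) ∨ ∃ u w, G.Adj u w ∧ c = {u, w}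

/-- The type of an ordered configuration: the multiset of the supports of its points. -/
noncomputable def typ (f : Conf G) : Multiset (Finset V) :=
  (Finset.univ : Finset (Fin 3)).val.map fun i => supp (f.1 i)

theorem typ_eq_of_permRel (f g : Conf G) (h : PermRel G f g) : typ f = typ g := by
  obtain ⟨σ, hσ⟩ := h
  unfold typ
  have h1 : (fun i => supp (g.1 i)) = (fun i => supp (f.1 i)) ∘ σ := by
    funext i; simp [hσ]
  rw [h1, ← Multiset.map_map]
  congr 1
  have := congrArg Finset.val (Finset.map_univ_equiv σ)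
  simpa using this.symm

/-- The type of an unordered configuration. -/
noncomputable def ty (x : UC G) : Multiset (Finset V) := Quot.lift typ typ_eq_of_permRel x

/-- Admissible types: three cells, no vertex being used twice. -/
def Adm (G : SimpleGraph V) (τ : Multiset (Finset V)) : Prop :=
  Multiset.card τ = 3 ∧ (∀ c ∈ τ, IsCell G c) ∧ ∀ u : V, τ.count ({u} : Finset V) ≤ 1

/-- Labels of elementary moves: `s c c' M` is the label of the move of one point from the cell `c` into the
larger cell `c'`, the two other points lying in the cells of `M`. The condition says that the two ways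
round a square of moves agree. -/
def Sq (G : SimpleGraph V) {A : Type} [Group A]
    (s : Finset V → Finset V → Multiset (Finset V) → A) : Prop :=
  ∀ (v w v' w' : V) (c : Finset V), G.Adj v w → G.Adj v' w' →
    Adm G (({v} : Finset V) ::ₘ ({v'} : Finset V) ::ₘ {c}) →
    s {v} {v, w} (({v'} : Finset V) ::ₘ {c}) * s {v'} {v', w'} (({v, w} : Finset V) ::ₘ {c}) =
      s {v'} {v', w'} (({v} : Finset V) ::ₘ {c}) * s {v} {v, w} (({v', w'} : Finset V) ::ₘ {c})

/-- Ordered triples of cells `a`, `a'` such that `a'` is obtained from the admissible triple `a` by moving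
some points from vertices into adjacent edges. -/
def Ok (G : SimpleGraph V) (a a' : Fin 3 → Finset V) : Prop :=
  (∀ i, IsCell G (a i)) ∧ (∀ i, IsCell G (a' i)) ∧ (∀ i, a i ⊆ a' i) ∧
    ∀ i j u, i ≠ j → a i = {u} → a j ≠ {u}

end conf

/-- The star is open. -/
def S_open : Prop :=
  ∀ (V : Type) [Fintype V] [DecidableEq V] (G : SimpleGraph V) (f : Conf G), IsOpen (St f)

/-- The star is contractible. -/
def S_contr : Prop :=
  ∀ (V : Type) [Fintype V] [DecidableEq V] (G : SimpleGraph V) (f : Conf G), ContractibleSpace (St f)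

/-- A configuration lies in its star, and stars are nested. -/
def S_nest : Prop :=
  ∀ (V : Type) [Fintype V] [DecidableEq V] (G : SimpleGraph V) (f : Conf G),
    f ∈ St f ∧ (∀ f' ∈ St f, ∀ f'' ∈ St f', f'' ∈ St f) ∧
    ∀ (σ : Equiv.Perm (Fin 3)), ∀ f' ∈ St f, f'.perm σ ∈ St (f.perm σ)

/-- In a graph without triangles, the star contains at most one ordering of each unordered
configuration. -/
def S_inj : Prop :=
  ∀ (V : Type) [Fintype V] [DecidableEq V] (G : SimpleGraph V), TriFree G →
    ∀ (f f' : Conf G) (σ : Equiv.Perm (Fin 3)), f' ∈ St f → f'.perm σ ∈ St f → σ = 1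

/-- The quotient map is open, and two ordered configurations with the same image differ by a
permutation. -/
def S_quot : Prop :=
  ∀ (V : Type) [Fintype V] [DecidableEq V] (G : SimpleGraph V),
    IsOpenMap (Quot.mk (PermRel G)) ∧
    ∀ f f' : Conf G, Quot.mk (PermRel G) f = Quot.mk (PermRel G) f' →
      ∃ σ : Equiv.Perm (Fin 3), f' = f.perm σ

/-- Supports are cells, and the support of a point in a closed edge. -/
def S_cell : Prop :=
  ∀ (V : Type) [Fintype V] [DecidableEq V] (G : SimpleGraph V),
    (∀ p : Pt G, IsCell G (supp p)) ∧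
    (∀ (p q : Pt G) (u : V), supp p = {u} → supp q = {u} → p = q) ∧
    (∀ (f f' : Conf G), f' ∈ St f → ∀ i, supp (f.1 i) ⊆ supp (f'.1 i))

/-- If the supports grow from `f` to `f1`, then some reordering of `f1`, with the same supports, lies in
the star of `f`. -/
def S_match : Prop :=
  ∀ (V : Type) [Fintype V] [DecidableEq V] (G : SimpleGraph V) (f f1 : Conf G),
    (∀ i, supp (f.1 i) ⊆ supp (f1.1 i)) →
    ∃ σ : Equiv.Perm (Fin 3), f1.perm σ ∈ St f ∧ ∀ i, supp (f1.1 (σ i)) = supp (f1.1 i)

/-- Every admissible triple of cells is the triple of supports of a configuration. -/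
def S_real : Prop :=
  ∀ (V : Type) [Fintype V] [DecidableEq V] (G : SimpleGraph V) (a : Fin 3 → Finset V),
    (∀ i, IsCell G (a i)) → (∀ i j u, i ≠ j → a i = {u} → a j ≠ {u}) →
    ∃ f : Conf G, ∀ i, supp (f.1 i) = a i

/-- The star neighbourhoods of unordered configurations. -/
def S_nbhd : Prop :=
  ∀ (V : Type) [Fintype V] [DecidableEq V] (G : SimpleGraph V), TriFree G →
    ∃ N : Nbhd (UC G), ∀ f : Conf G, N.U (Quot.mk (PermRel G) f) = Quot.mk (PermRel G) '' St f

/-- Labels of elementary moves extend to labels of all moves of ordered triples. -/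
def S_lab : Prop :=
  ∀ (V : Type) [Fintype V] [DecidableEq V] (G : SimpleGraph V) (A : Type) [Group A]
    (s : Finset V → Finset V → Multiset (Finset V) → A), Sq G s →
    ∃ h : (Fin 3 → Finset V) → (Fin 3 → Finset V) → A,
      (∀ a a' (σ : Equiv.Perm (Fin 3)), Ok G a a' → h (a ∘ σ) (a' ∘ σ) = h a a') ∧
      (∀ a a' a'', Ok G a a' → Ok G a' a'' → h a a' * h a' a'' = h a a'') ∧
      (∀ a (v w : V), G.Adj v w → a 0 = {v} → Ok G a (Function.update a 0 {v, w}) →
        h a (Function.update a 0 {v, w}) = s {v} {v, w} (a 1 ::ₘ {a 2}))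

/-- Labels of elementary moves give a multiplicative function on the pairs `y ∈ U x`. -/
def S_glev : Prop :=
  ∀ (V : Type) [Fintype V] [DecidableEq V] (G : SimpleGraph V), TriFree G →
    ∀ (N : Nbhd (UC G)), (∀ f : Conf G, N.U (Quot.mk (PermRel G) f) = Quot.mk (PermRel G) '' St f) →
    ∀ (A : Type) [Group A] (s : Finset V → Finset V → Multiset (Finset V) → A), Sq G s →
    ∃ g : UC G → UC G → A,
      (∀ x, ∀ y ∈ N.U x, ∀ z ∈ N.U y, g x y * g y z = g x z) ∧
      (∀ x y (v w : V) (M : Multiset (Finset V)), G.Adj v w → ty x = ({v} : Finset V) ::ₘ M →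
        ty y = ({v, w} : Finset V) ::ₘ M → y ∈ N.U x ∧ g x y = s {v} {v, w} M) ∧
      (∀ x y, ty x = ty y → y ∈ N.U x ∧ g x y = 1)

/-- Two multiplicative functions on the pairs `y ∈ U x` agree if they agree on elementary moves and on
pairs of the same type. -/
def S_uniq : Prop :=
  ∀ (V : Type) [Fintype V] [DecidableEq V] (G : SimpleGraph V), TriFree G →
    ∀ (N : Nbhd (UC G)), (∀ f : Conf G, N.U (Quot.mk (PermRel G) f) = Quot.mk (PermRel G) '' St f) →
    ∀ (A : Type) [Group A] (g g' : UC G → UC G → A),
      (∀ x, ∀ y ∈ N.U x, ∀ z ∈ N.U y, g x y * g y z = g x z) →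
      (∀ x, ∀ y ∈ N.U x, ∀ z ∈ N.U y, g' x y * g' y z = g' x z) →
      (∀ x y (v w : V) (M : Multiset (Finset V)), G.Adj v w → ty x = ({v} : Finset V) ::ₘ M →
        ty y = ({v, w} : Finset V) ::ₘ M → g x y = g' x y) →
      (∀ x y, ty x = ty y → g x y = g' x y) →
      ∀ x, ∀ y ∈ N.U x, g x y = g' x y

/-- Existence of configurations of a given type, and admissibility of types. -/
def S_type : Prop :=
  ∀ (V : Type) [Fintype V] [DecidableEq V] (G : SimpleGraph V),
    (∀ x : UC G, Adm G (ty x)) ∧ ∀ τ, Adm G τ → ∃ x : UC G, ty x = τ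

/-- The combinatorial input: labels of elementary moves with values in `A` which are universal. -/
structure Univ {V : Type} [Fintype V] [DecidableEq V] (G : SimpleGraph V) (A : Type) [Group A]
    (s : Finset V → Finset V → Multiset (Finset V) → A) (τ0 : Multiset (Finset V)) : Prop where
  adm : Adm G τ0
  sq : Sq G s
  ex : ∀ (π : Type) [Group π] (l : Finset V → Finset V → Multiset (Finset V) → π), Sq G l →
    ∃ (φ : Multiset (Finset V) → π) (Ψ : A →* π), φ τ0 = 1 ∧
      ∀ (v w : V) (M : Multiset (Finset V)), G.Adj v w → Adm G (({v} : Finset V) ::ₘ M) →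
        l {v} {v, w} M =
          (φ (({v} : Finset V) ::ₘ M))⁻¹ * Ψ (s {v} {v, w} M) * φ (({v, w} : Finset V) ::ₘ M)
  conn : ∀ (S : Type) (α : Multiset (Finset V) → S),
    (∀ (v w : V) (M : Multiset (Finset V)), G.Adj v w → Adm G (({v} : Finset V) ::ₘ M) →
      s {v} {v, w} M = 1 → α (({v} : Finset V) ::ₘ M) = α (({v, w} : Finset V) ::ₘ M)) →
    ∀ τ, Adm G τ → α τ = α τ0
  gen : Subgroup.closure {a : A | ∃ (v w : V) (M : Multiset (Finset V)), G.Adj v w ∧
    Adm G (({v} : Finset V) ::ₘ M) ∧ a = s {v} {v, w} M} = ⊤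

/-- The reduction of the computation of the fundamental group to combinatorics. -/
def S_red : Prop :=
  ∀ (V : Type) [Fintype V] [DecidableEq V] (G : SimpleGraph V), TriFree G →
    ∀ (A : Type) [Group A] (s : Finset V → Finset V → Multiset (Finset V) → A)
      (τ0 : Multiset (Finset V)), Univ G A s τ0 →
    ∀ x0 : UC G, ty x0 = τ0 → Nonempty (FundamentalGroup (UC G) x0 ≃* A)

end Pool.Agent.W584.GB
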